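import Mathlib

/-!
Emptiness of automata given by tables, with certificates.
-/

set_option autoImplicit false

namespace Pool.Agent.Helper247.Elem.Auto

/-- All successors of the state `0` and of the states in `Q`. -/
def succs (tab : List (List ℕ)) (len : ℕ) (Q : List ℕ) : List ℕ :=
  (0 :: Q).flatMap (fun q => (List.range len).map (fun a => (tab.getD q []).getD a 0))

/-- A certificate that no nonempty word is accepted. -/
def Cert (x : (List (List ℕ) × List ℕ) × ℕ) (Q : List ℕ) : Prop :=
  (∀ s ∈ succs x.1.1 x.2 Q, s ∈ Q) ∧ (∀ q ∈ Q, q ∉ x.1.2)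

/-- The state after reading a word. -/
def run (tab : List (List ℕ)) (w : List ℕ) : ℕ :=
  w.foldl (fun q a => (tab.getD q []).getD a 0) 0

theorem run_append (tab : List (List ℕ)) (w : List ℕ) (a : ℕ) :
    run tab (w ++ [a]) = (tab.getD (run tab w) []).getD a 0 := by
  simp [run]

theorem mem_succs {tab : List (List ℕ)} {len : ℕ} {Q : List ℕ} {s : ℕ} :
    s ∈ succs tab len Q ↔ ∃ q ∈ 0 :: Q, ∃ a < len, (tab.getD q []).getD a 0 = s := by
  simp only [succs, List.mem_flatMap, List.mem_map, List.mem_range]

theorem cert_iff (tab : List (List ℕ)) (acc : List ℕ) (len : ℕ) :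
    (∃ Q, Cert ((tab, acc), len) Q) ↔
      ¬ ∃ w : List ℕ, w ≠ [] ∧ (∀ a ∈ w, a < len) ∧ run tab w ∈ acc := by
  classical
  constructor
  · rintro ⟨Q, h1, h2⟩ ⟨w, hne, hw, hacc⟩
    have key : ∀ w : List ℕ, (∀ a ∈ w, a < len) → run tab w ∈ 0 :: Q ∧ (w ≠ [] → run tab w ∈ Q) := by
      intro w
      induction w using List.reverseRecOn with
      | nil => intro _; simp [run]
      | append_singleton w a ih =>
        intro hw
        have h3 := (ih (fun b hb => hw b (by simp [hb]))).1
        have h4 : run tab (w ++ [a]) ∈ Q := by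
          apply h1
          rw [mem_succs]
          exact ⟨_, h3, a, hw a (by simp), (run_append tab w a).symm⟩
        exact ⟨List.mem_cons_of_mem _ h4, fun _ => h4⟩
    exact h2 _ ((key w hw).2 hne) hacc
  · intro h
    refine ⟨(0 :: tab.flatten).filter (fun q => decide (∃ w : List ℕ, w ≠ [] ∧ (∀ a ∈ w, a < len) ∧
      run tab w = q)), ?_, ?_⟩
    · intro s hs
      rw [mem_succs] at hs
      obtain ⟨q, hq, a, ha, rfl⟩ := hs
      rw [List.mem_filter]
      constructor
      · by_cases h1 : q < tab.length
        · by_cases h2 : a < (tab[q]).length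
          · apply List.mem_cons_of_mem
            rw [List.mem_flatten]
            refine ⟨tab[q], List.getElem_mem h1, ?_⟩
            simp [List.getD_eq_getElem?_getD, h1, h2]
          · simp only [not_lt] at h2
            simp [List.getD_eq_getElem?_getD, h1, h2]
        · simp only [not_lt] at h1
          simp [List.getD_eq_getElem?_getD, h1]
      · rw [List.mem_cons, List.mem_filter] at hq
        rw [decide_eq_true_iff]
        rcases hq with rfl | ⟨_, hq⟩
        · exact ⟨[a], by simp, by simpa using ha, by simp [run]⟩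
        · rw [decide_eq_true_iff] at hq
          obtain ⟨w, hne, hw, rfl⟩ := hq
          refine ⟨w ++ [a], by simp, ?_, run_append _ _ _⟩
          intro b hb
          rw [List.mem_append] at hb
          rcases hb with hb | hb
          · exact hw b hb
          · rw [List.mem_singleton] at hb
            rw [hb]; exact ha
    · intro q hq hacc
      rw [List.mem_filter, decide_eq_true_iff] at hq
      obtain ⟨_, w, hne, hw, rfl⟩ := hq
      exact h ⟨w, hne, hw, hacc⟩

theorem mem_primrec : PrimrecRel (fun (a : ℕ) (Q : List ℕ) => a ∈ Q) := by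
  have h1 : PrimrecRel (fun (a : ℕ) (b : ℕ) => a = b) := Primrec.eq
  have h2 := (PrimrecRel.exists_mem_list h1).comp (Primrec.snd (α := ℕ) (β := List ℕ))
    (Primrec.fst (α := ℕ) (β := List ℕ))
  refine PrimrecPred.of_eq h2 (fun x => ?_)
  simp

theorem cert_primrec : PrimrecRel Cert := by
  have hs : Primrec (fun x : ((List (List ℕ) × List ℕ) × ℕ) × List ℕ =>
      succs x.1.1.1 x.1.2 x.2) := by
    unfold succs
    refine Primrec.list_flatMap (Primrec.list_cons.comp (Primrec.const 0) Primrec.snd) ?_
    refine Primrec.list_map (Primrec.list_range.comp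
      (Primrec.snd.comp (Primrec.fst.comp Primrec.fst))) ?_
    refine (Primrec.list_getD 0).comp ?_ Primrec.snd
    refine (Primrec.list_getD []).comp ?_ (Primrec.snd.comp Primrec.fst)
    exact Primrec.fst.comp (Primrec.fst.comp (Primrec.fst.comp (Primrec.fst.comp Primrec.fst)))
  have h1 : PrimrecPred (fun x : ((List (List ℕ) × List ℕ) × ℕ) × List ℕ =>
      ∀ s ∈ succs x.1.1.1 x.1.2 x.2, s ∈ x.2) :=
    (PrimrecRel.forall_mem_list mem_primrec).comp hs Primrec.snd
  have h2 : PrimrecPred (fun x : ((List (List ℕ) × List ℕ) × ℕ) × List ℕ =>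
      ∀ q ∈ x.2, q ∉ x.1.1.2) :=
    (PrimrecRel.forall_mem_list mem_primrec.not).comp Primrec.snd
      (Primrec.snd.comp (Primrec.fst.comp Primrec.fst))
  exact h1.and h2

theorem re_exists {α : Type} [Primcodable α] {R : α → List ℕ → Prop}
    (h : ComputablePred (fun p : α × List ℕ => R p.1 p.2)) :
    REPred (fun a => ∃ Q, R a Q) := by
  obtain ⟨f, hf, hR⟩ := ComputablePred.computable_iff.1 h
  have hR' : ∀ a Q, R a Q ↔ f (a, Q) = true := fun a Q => by
    have := congrFun hR (a, Q)
    simp only at this
    rw [this]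
  have h1 : Computable₂ (fun (a : α) (n : ℕ) => f (a, Denumerable.ofNat (List ℕ) n)) :=
    hf.comp (Computable.pair Computable.fst ((Computable.ofNat (List ℕ)).comp Computable.snd))
  have h2 : Partrec (fun a => Nat.rfind fun n =>
      Part.some (f (a, Denumerable.ofNat (List ℕ) n))) := Partrec.rfind h1.partrec₂
  refine h2.dom_re.of_eq (fun a => ?_)
  refine Nat.rfind_dom.trans ?_
  constructor
  · rintro ⟨n, hn, _⟩
    simp only [Part.mem_some_iff] at hn
    exact ⟨_, (hR' _ _).2 hn.symm⟩
  · rintro ⟨Q, hQ⟩
    refine ⟨Encodable.encode Q, ?_, fun _ => trivial⟩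
    rw [hR'] at hQ
    simp [hQ]

end Pool.Agent.Helper247.Elem.Auto
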