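import Mathlib

/-!
The domino system: letters, rules, overflow steps, the reading and writing protocols.
-/

set_option autoImplicit false

namespace Pool.Agent.Helper247.Elem

open Relation

/-- Letters of the domino system; the first Boolean argument tells whether the letter is starred. -/
inductive Lt
  | c (b : Bool)
  | kap
  | rho (s : Bool)
  | y (s : Bool) (d t : ℕ)
  | q (s b : Bool) (t : ℕ)
  | x (s b : Bool) (t : ℕ)
  | hat (s : Bool)
  deriving DecidableEq, Encodable

namespace Lt

/-- The involution on letters. -/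
def star : Lt → Lt
  | c b => c b
  | kap => kap
  | rho s => rho (!s)
  | y s d t => y (!s) d t
  | q s b t => q (!s) b t
  | x s b t => x (!s) b t
  | hat s => hat (!s)

@[simp] theorem star_c (b : Bool) : (c b).star = c b := rfl
@[simp] theorem star_kap : kap.star = kap := rfl
@[simp] theorem star_rho (s : Bool) : (rho s).star = rho (!s) := rfl
@[simp] theorem star_y (s : Bool) (d t : ℕ) : (y s d t).star = y (!s) d t := rfl
@[simp] theorem star_q (s b : Bool) (t : ℕ) : (q s b t).star = q (!s) b t := rfl
@[simp] theorem star_x (s b : Bool) (t : ℕ) : (x s b t).star = x (!s) b t := rfl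
@[simp] theorem star_hat (s : Bool) : (hat s).star = hat (!s) := rfl

@[simp] theorem star_star (a : Lt) : a.star.star = a := by
  cases a <;> simp [star]

end Lt

open Lt

/-- Reversal of a word combined with the involution on letters. -/
def rs (w : List Lt) : List Lt := (w.map star).reverse

@[simp] theorem rs_nil : rs [] = [] := rfl

@[simp] theorem rs_cons (a : Lt) (w : List Lt) : rs (a :: w) = rs w ++ [a.star] := by
  simp [rs]

@[simp] theorem rs_append (u v : List Lt) : rs (u ++ v) = rs v ++ rs u := by
  simp [rs]

@[simp] theorem rs_rs (w : List Lt) : rs (rs w) = w := by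
  simp [rs, Function.comp_def]

/-- Sources of transitions: reading a bit in a reading point, or leaving a writing point. -/
abbrev Src := (ℕ × Bool) ⊕ ℕ

/-- Targets of transitions: entering a reading point, or writing a bit and entering a writing
point. -/
abbrev Tgt := ℕ ⊕ (ℕ × Bool)

/-- The duality between sources and targets. -/
def du : Src → Tgt
  | .inl p => .inr p
  | .inr n => .inl n

/-- The inverse duality. -/
def du' : Tgt → Src
  | .inl n => .inr n
  | .inr p => .inl p

@[simp] theorem du_du' (t : Tgt) : du (du' t) = t := by cases t <;> rfl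
@[simp] theorem du'_du (t : Src) : du' (du t) = t := by cases t <;> rfl

/-- The word read by a transition. -/
def srcW : Src → List Lt
  | .inl (n, j) => [kap, q false true n, x false j n]
  | .inr n => [rho true, y true n 0]

/-- The word written by a transition. -/
def tgtW : Tgt → List Lt
  | .inl n => [y false n 0, rho false]
  | .inr (n, b) => [x true b n, q true true n, kap]

theorem rs_srcW (s : Src) : rs (srcW s) = tgtW (du s) := by
  rcases s with ⟨n, j⟩ | n <;> simp [srcW, tgtW, du]

theorem rs_tgtW (s : Tgt) : rs (tgtW s) = srcW (du' s) := by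
  rcases s with n | ⟨n, j⟩ <;> simp [srcW, tgtW, du']

/-- A finite reversible machine closed under duality. -/
structure Mach where
  /-- The bound on point indices. -/
  N : ℕ
  /-- The transitions. -/
  Tr : Type
  /-- The source of a transition. -/
  src : Tr → Src
  /-- The target of a transition. -/
  tgt : Tr → Tgt
  /-- The dual of a transition. -/
  dual : Tr → Tr
  src_inj : Function.Injective src
  tgt_inj : Function.Injective tgt
  src_dual : ∀ δ, src (dual δ) = du' (tgt δ)
  tgt_dual : ∀ δ, tgt (dual δ) = du (src δ)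
  src_lt : ∀ δ n, src δ = .inr n → n < N
  src_lt' : ∀ δ n b, src δ = .inl (n, b) → n < N

/-- Normal rules. -/
inductive Rule (N : ℕ) (Tr : Type)
  | I (j : Bool)
  | C (s j : Bool)
  | Y (s : Bool) (d t : Fin N)
  | P (s : Bool) (t : Fin N) (j : Bool)
  | T (δ : Tr)

/-- The `Y` words. -/
def Yout : ℕ → ℕ → List Lt
  | 0, t => [q false true t]
  | d + 1, t => [y false d (t + 1), q false false t]

/-- The dual `Y` words. -/
def Yin : ℕ → ℕ → List Lt
  | 0, t => [q true true t]
  | d + 1, t => [q true false t, y true d (t + 1)]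

theorem rs_Yout (d t : ℕ) : rs (Yout d t) = Yin d t := by
  cases d <;> simp [Yout, Yin]

theorem rs_Yin (d t : ℕ) : rs (Yin d t) = Yout d t := by
  cases d <;> simp [Yout, Yin]

variable (A : Mach)

/-- The word consumed by a rule. -/
def gw : Rule A.N A.Tr → List Lt
  | .I j => [kap, c j]
  | .C false j => [rho false, c j]
  | .C true j => [kap, x true j 0]
  | .Y false d t => [kap, y false d t]
  | .Y true d t => Yin d t
  | .P false t j => [q false false t, x false j t]
  | .P true t j => [kap, x true j (t + 1)]
  | .T δ => srcW (A.src δ)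

/-- The word produced by a rule. -/
def hw : Rule A.N A.Tr → List Lt
  | .I j => [c j, kap]
  | .C false j => [x false j 0, kap]
  | .C true j => [c j, rho true]
  | .Y false d t => Yout d t
  | .Y true d t => [y true d t, kap]
  | .P false t j => [x false j (t + 1), kap]
  | .P true t j => [x true j t, q true false t]
  | .T δ => tgtW (A.tgt δ)

/-- The dual rule. -/
def dr : Rule A.N A.Tr → Rule A.N A.Tr
  | .I j => .I j
  | .C s j => .C (!s) j
  | .Y s d t => .Y (!s) d t
  | .P s t j => .P (!s) t j
  | .T δ => .T (A.dual δ)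

theorem gw_dr (r : Rule A.N A.Tr) : gw A (dr A r) = rs (hw A r) := by
  cases r with
  | I j => simp [gw, hw, dr]
  | C s j => cases s <;> simp [gw, hw, dr]
  | Y s d t => cases s <;> simp [gw, hw, dr, rs_Yout]
  | P s t j => cases s <;> simp [gw, hw, dr]
  | T δ => simp [gw, hw, dr, A.src_dual, rs_tgtW]

theorem hw_dr (r : Rule A.N A.Tr) : hw A (dr A r) = rs (gw A r) := by
  cases r with
  | I j => simp [gw, hw, dr]
  | C s j => cases s <;> simp [gw, hw, dr]
  | Y s d t => cases s <;> simp [gw, hw, dr, rs_Yin]
  | P s t j => cases s <;> simp [gw, hw, dr]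
  | T δ => simp [gw, hw, dr, A.tgt_dual, rs_srcW]

/-- One step of the overflow. -/
def Step (z z' : List Lt) : Prop :=
  ∃ (r : Rule A.N A.Tr) (t : List Lt), z = gw A r ++ t ∧ z' = t ++ hw A r

/-- Reachability. -/
abbrev Reach : List Lt → List Lt → Prop := ReflTransGen (Step A)

/-- Reachability in at least one step. -/
abbrev Reach₁ : List Lt → List Lt → Prop := TransGen (Step A)

theorem step_dual {z z' : List Lt} (h : Step A z z') : Step A (rs z') (rs z) := by
  obtain ⟨r, t, rfl, rfl⟩ := h
  refine ⟨dr A r, rs t, ?_, ?_⟩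
  · rw [gw_dr, rs_append]
  · rw [hw_dr, rs_append]

theorem reach_dual {z z' : List Lt} (h : Reach A z z') : Reach A (rs z') (rs z) := by
  induction h with
  | refl => exact ReflTransGen.refl
  | tail _ h2 ih => exact ReflTransGen.head (step_dual A h2) ih

/-- The stored bits. -/
def Q (z : List Bool) : List Lt := z.flatMap (fun b => [c b, kap])

@[simp] theorem Q_nil : Q [] = [] := rfl

@[simp] theorem Q_cons (b : Bool) (z : List Bool) : Q (b :: z) = c b :: kap :: Q z := rfl

@[simp] theorem Q_append (u v : List Bool) : Q (u ++ v) = Q u ++ Q v := by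
  simp [Q]

theorem rs_kap_Q (z : List Bool) : rs (kap :: Q z) = kap :: Q z.reverse := by
  induction z with
  | nil => simp
  | cons b z ih =>
    simp only [rs_cons, Q_cons, List.reverse_cons, Q_append] at ih ⊢
    rw [ih]
    simp

theorem rot (z : List Bool) : ∀ V : List Lt,
    Reach A (kap :: (Q z ++ V)) (kap :: (V ++ Q z)) := by
  induction z with
  | nil => intro V; simp only [Q_nil, List.nil_append, List.append_nil]; exact ReflTransGen.refl
  | cons b z ih =>
    intro V
    have h1 : Step A (kap :: (Q (b :: z) ++ V)) (kap :: (Q z ++ (V ++ [c b, kap]))) :=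
      ⟨.I b, kap :: (Q z ++ V), by simp [gw], by simp [hw]⟩
    refine ReflTransGen.head h1 ?_
    have h2 := ih (V ++ [c b, kap])
    simpa using h2

/-- Configurations. -/
inductive Cfg
  | R (n : ℕ) (z : List Bool)
  | W (n : ℕ) (z : List Bool)

/-- The overflow representing a configuration. -/
def rep : Cfg → List Lt
  | .R n z => kap :: y false n 0 :: rho false :: Q z
  | .W n z => rho true :: y true n 0 :: kap :: Q z

/-- The configuration after a transition. -/
def post : Tgt → List Bool → Cfg
  | .inl n, z => .R n z
  | .inr (n, b), z => .W n (z ++ [b])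

/-- The overflow in the middle of reading. -/
def SS (d t : ℕ) (j : Bool) (z : List Bool) : List Lt :=
  kap :: (Yout d t ++ x false j t :: kap :: Q z)

theorem read_start (n : ℕ) (hn : n < A.N) (j : Bool) (z : List Bool) :
    Reach₁ A (rep (.R n (j :: z))) (SS n 0 j z) := by
  have h1 : Step A (rep (.R n (j :: z))) (rho false :: c j :: kap :: (Q z ++ Yout n 0)) :=
    ⟨.Y false ⟨n, hn⟩ ⟨0, by omega⟩, rho false :: c j :: kap :: Q z, by simp [gw, rep],
      by simp [hw]⟩
  have h2 : Step A (rho false :: c j :: kap :: (Q z ++ Yout n 0))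
      (kap :: (Q z ++ (Yout n 0 ++ [x false j 0, kap]))) :=
    ⟨.C false j, kap :: (Q z ++ Yout n 0), by simp [gw], by simp [hw]⟩
  have h3 := rot A z (Yout n 0 ++ [x false j 0, kap])
  refine TransGen.head h1 (TransGen.head' h2 ?_)
  simpa [SS] using h3

theorem read_loop (d t : ℕ) (h : d + 1 < A.N) (ht : t + 1 < A.N) (j : Bool) (z : List Bool) :
    Reach A (SS (d + 1) t j z) (SS d (t + 1) j z) := by
  have h1 : Step A (SS (d + 1) t j z)
      (q false false t :: x false j t :: kap :: (Q z ++ Yout d (t + 1))) :=
    ⟨.Y false ⟨d, by omega⟩ ⟨t + 1, ht⟩, q false false t :: x false j t :: kap :: Q z,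
      by simp [gw, SS, Yout], by simp [hw]⟩
  have h2 : Step A (q false false t :: x false j t :: kap :: (Q z ++ Yout d (t + 1)))
      (kap :: (Q z ++ (Yout d (t + 1) ++ [x false j (t + 1), kap]))) :=
    ⟨.P false ⟨t, by omega⟩ j, kap :: (Q z ++ Yout d (t + 1)), by simp [gw], by simp [hw]⟩
  have h3 := rot A z (Yout d (t + 1) ++ [x false j (t + 1), kap])
  refine ReflTransGen.head h1 (ReflTransGen.head h2 ?_)
  simpa [SS] using h3

theorem read_all (j : Bool) (z : List Bool) : ∀ d t : ℕ, d + t < A.N →
    Reach A (SS d t j z) (SS 0 (d + t) j z) := by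
  intro d
  induction d with
  | zero => intro t _; simp only [Nat.zero_add]; exact ReflTransGen.refl
  | succ d ih =>
    intro t h
    have h1 := read_loop A d t (by omega) (by omega) j z
    have h2 := ih (t + 1) (by omega)
    have e : d + 1 + t = d + (t + 1) := by omega
    rw [e]
    exact h1.trans h2

/-- The reading phase up to the moment when the point index and the bit meet. -/
theorem read_to (n : ℕ) (hn : n < A.N) (j : Bool) (z : List Bool) :
    Reach₁ A (rep (.R n (j :: z))) (kap :: q false true n :: x false j n :: kap :: Q z) := by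
  have h1 := read_start A n hn j z
  have h2 := read_all A j z n 0 (by omega)
  have h3 := h1.trans_left h2
  simpa [SS, Yout] using h3

/-- The overflow in the middle of writing. -/
def UU (d t : ℕ) (b : Bool) (z : List Bool) : List Lt :=
  kap :: x true b t :: (Yin d t ++ kap :: Q z)

theorem write_loop (d t : ℕ) (h : d < A.N) (ht : t + 1 < A.N) (b : Bool) (z : List Bool) :
    Reach A (UU d (t + 1) b z) (UU (d + 1) t b z) := by
  have h1 : Step A (UU d (t + 1) b z)
      (Yin d (t + 1) ++ kap :: (Q z ++ [x true b t, q true false t])) :=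
    ⟨.P true ⟨t, by omega⟩ b, Yin d (t + 1) ++ kap :: Q z, by simp [gw, UU], by simp [hw]⟩
  have h2 : Step A (Yin d (t + 1) ++ kap :: (Q z ++ [x true b t, q true false t]))
      (kap :: (Q z ++ [x true b t, q true false t, y true d (t + 1), kap])) :=
    ⟨.Y true ⟨d, h⟩ ⟨t + 1, ht⟩, kap :: (Q z ++ [x true b t, q true false t]),
      by simp [gw], by simp [hw]⟩
  have h3 := rot A z [x true b t, q true false t, y true d (t + 1), kap]
  refine ReflTransGen.head h1 (ReflTransGen.head h2 ?_)
  simpa [UU, Yin] using h3

theorem write_all (b : Bool) (z : List Bool) : ∀ t d : ℕ, d + t < A.N →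
    Reach A (UU d t b z) (UU (d + t) 0 b z) := by
  intro t
  induction t with
  | zero => intro d _; exact ReflTransGen.refl
  | succ t ih =>
    intro d h
    have h1 := write_loop A d t (by omega) (by omega) b z
    have h2 := ih (d + 1) (by omega)
    have e : d + 1 + t = d + (t + 1) := by omega
    rw [e] at h2
    exact h1.trans h2

theorem write_end (d : ℕ) (h : d < A.N) (b : Bool) (z : List Bool) :
    Reach A (UU d 0 b z) (rep (.W d (z ++ [b]))) := by
  have h1 : Step A (UU d 0 b z) (Yin d 0 ++ kap :: (Q z ++ [c b, rho true])) :=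
    ⟨.C true b, Yin d 0 ++ kap :: Q z, by simp [gw, UU], by simp [hw]⟩
  have h2 : Step A (Yin d 0 ++ kap :: (Q z ++ [c b, rho true]))
      (kap :: (Q z ++ [c b, rho true, y true d 0, kap])) :=
    ⟨.Y true ⟨d, h⟩ ⟨0, by omega⟩, kap :: (Q z ++ [c b, rho true]), by simp [gw], by simp [hw]⟩
  have h3 := rot A z [c b, rho true, y true d 0, kap]
  have h4 : Step A (kap :: ([c b, rho true, y true d 0, kap] ++ Q z)) (rep (.W d (z ++ [b]))) :=
    ⟨.I b, rho true :: y true d 0 :: kap :: Q z, by simp [gw], by simp [hw, rep]⟩
  exact ReflTransGen.head h1 (ReflTransGen.head h2 (h3.tail h4))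

/-- After a transition the overflow becomes the representation of the next configuration. -/
theorem post_reach (τ : Tgt) (hτ : ∀ n b, τ = .inr (n, b) → n < A.N) (z : List Bool) :
    Reach A (kap :: (Q z ++ tgtW τ)) (rep (post τ z)) := by
  rcases τ with n | ⟨n, b⟩
  · have h := rot A z (tgtW (.inl n))
    simpa [tgtW, post, rep] using h
  · have hn := hτ n b rfl
    have h := rot A z (tgtW (.inr (n, b)))
    have h2 := write_all A b z n 0 (by omega)
    have h3 := write_end A n hn b z
    rw [Nat.zero_add] at h2
    refine ReflTransGen.trans ?_ (h2.trans h3)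
    simpa [tgtW, UU, Yin] using h

theorem tgt_lt (δ : A.Tr) (n : ℕ) (b : Bool) (h : A.tgt δ = .inr (n, b)) : n < A.N := by
  have h1 := A.src_dual δ
  rw [h] at h1
  exact A.src_lt' _ _ _ h1

theorem trans_read (δ : A.Tr) (n : ℕ) (j : Bool) (h : A.src δ = .inl (n, j)) (z : List Bool) :
    Reach₁ A (rep (.R n (j :: z))) (rep (post (A.tgt δ) z)) := by
  have h1 := read_to A n (A.src_lt' δ n j h) j z
  have h2 : Step A (kap :: q false true n :: x false j n :: kap :: Q z)
      (kap :: (Q z ++ tgtW (A.tgt δ))) :=
    ⟨.T δ, kap :: Q z, by simp [gw, h, srcW], by simp [hw]⟩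
  have h3 := post_reach A (A.tgt δ) (fun n b => tgt_lt A δ n b) z
  exact (h1.tail h2).trans_left h3

theorem trans_write (δ : A.Tr) (n : ℕ) (h : A.src δ = .inr n) (z : List Bool) :
    Reach₁ A (rep (.W n z)) (rep (post (A.tgt δ) z)) := by
  have h2 : Step A (rep (.W n z)) (kap :: (Q z ++ tgtW (A.tgt δ))) :=
    ⟨.T δ, kap :: Q z, by simp [gw, h, srcW, rep], by simp [hw]⟩
  have h3 := post_reach A (A.tgt δ) (fun n b => tgt_lt A δ n b) z
  exact TransGen.head' h2 h3

/-- The start word. -/
def z0 (n : ℕ) (bits : List Bool) : List Lt := kap :: (Q bits ++ [y false n 0, rho false])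

theorem z0_reach (n : ℕ) (bits : List Bool) : Reach A (z0 n bits) (rep (.R n bits)) := by
  have h := rot A bits [y false n 0, rho false]
  simpa [z0, rep] using h

/-- If the computation reaches the switch with a palindrome, then the end word is reached. -/
theorem reach_end (n0 : ℕ) (bits : List Bool) (δ : A.Tr) (n : ℕ) (j : Bool)
    (hs : A.src δ = .inl (n, j)) (ht : A.tgt δ = .inr (n, j)) (z : List Bool)
    (hz : z.reverse = z) (h : Reach A (rep (.R n0 bits)) (rep (.R n (j :: z)))) :
    Reach A (z0 n0 bits) (rs (z0 n0 bits)) := by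
  have h1 := read_to A n (A.src_lt' δ n j hs) j z
  have h2 : Reach A (z0 n0 bits) (kap :: q false true n :: x false j n :: kap :: Q z) :=
    ((z0_reach A n0 bits).trans h).trans h1.to_reflTransGen
  have h3 : Step A (kap :: q false true n :: x false j n :: kap :: Q z)
      (kap :: (Q z ++ [x true j n, q true true n, kap])) :=
    ⟨.T δ, kap :: Q z, by simp [gw, hs, srcW], by simp [hw, ht, tgtW]⟩
  have e : rs (kap :: q false true n :: x false j n :: kap :: Q z) =
      kap :: (Q z ++ [x true j n, q true true n, kap]) := by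
    have := rs_kap_Q z
    rw [hz] at this
    simp only [rs_cons] at this ⊢
    rw [this]
    simp
  have h4 := reach_dual A h2
  rw [e] at h4
  exact (h2.tail h3).trans h4

end Pool.Agent.Helper247.Elem
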