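import Mathlib
import Pool.Agent.Helper247.Elem.Dom

/-!
The words of the domino system form an elementary family.
-/

set_option autoImplicit false

namespace Pool.Agent.Helper247.Elem

open Lt

/-- Indices of the universal family. -/
inductive U
  | I (j : Bool)
  | C (s j : Bool)
  | Y (s : Bool) (d t : ℕ)
  | P (s : Bool) (t : ℕ) (j : Bool)
  | T (σ : Src)
  | S
  | E

/-- Words of the universal family. -/
def uw (ze : List Lt) : U → List Lt
  | .I j => [kap, c j]
  | .C false j => [rho false, c j]
  | .C true j => [kap, x true j 0]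
  | .Y false d t => [kap, y false d t]
  | .Y true 0 t => [q true true t]
  | .Y true (d + 1) t => [q true false t, y true d (t + 1)]
  | .P false t j => [q false false t, x false j t]
  | .P true t j => [kap, x true j (t + 1)]
  | .T (.inl (n, j)) => [kap, q false true n, x false j n]
  | .T (.inr n) => [rho true, y true n 0]
  | .S => [hat false]
  | .E => ze ++ [hat true]

/-- A choice of letters in the words of the universal family. -/
def key (f1 f2 : Bool) (f3 f4 : ℕ → Bool) : U → Lt
  | .I false => c false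
  | .I true => if f1 then kap else c true
  | .C false false => if f2 then rho false else c false
  | .C false true => c true
  | .C true j => x true j 0
  | .Y false d t => y false d t
  | .Y true 0 t => q true true t
  | .Y true (d + 1) t => y true d (t + 1)
  | .P false t false => x false false t
  | .P false t true => if f3 t then q false false t else x false true t
  | .P true t j => x true j (t + 1)
  | .T (.inl (n, false)) => if f4 n then q false true n else x false false n
  | .T (.inl (n, true)) => x false true n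
  | .T (.inr n) => y true n 0
  | .S => hat false
  | .E => hat true

theorem key_mem (ze : List Lt) (f1 f2 : Bool) (f3 f4 : ℕ → Bool) (i : U) :
    key f1 f2 f3 f4 i ∈ uw ze i := by
  rcases i with (_ | _) | ⟨_ | _, _ | _⟩ | ⟨_ | _, _ | d, t⟩ | ⟨_ | _, t, _ | _⟩ |
      (⟨n, _ | _⟩ | n) | _ | _ <;> simp only [key, uw] <;> (try split_ifs) <;> simp

/-- The possible coincidences. -/
def coinc (f1 f2 : Bool) (f3 f4 : ℕ → Bool) (i i' : U) : Prop :=
  (f1 = false ∧ i = .I true ∧ i' = .C false true) ∨
  (f2 = false ∧ i = .C false false ∧ i' = .I false) ∨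
  (∃ t, f3 t = false ∧ i = .P false t true ∧ i' = .T (.inl (t, true))) ∨
  (∃ t, f4 t = false ∧ i = .T (.inl (t, false)) ∧ i' = .P false t false)

set_option maxHeartbeats 4000000 in
theorem key_sep (ze : List Lt) (f1 f2 : Bool) (f3 f4 : ℕ → Bool) (i i' : U)
    (h1 : key f1 f2 f3 f4 i ∈ uw ze i') (h2 : key f1 f2 f3 f4 i' ∈ uw ze i) :
    i = i' ∨ coinc f1 f2 f3 f4 i i' ∨ coinc f1 f2 f3 f4 i' i := by
  rcases i with (_ | _) | ⟨_ | _, _ | _⟩ | ⟨_ | _, _ | d, t⟩ | ⟨_ | _, t, _ | _⟩ |
      (⟨n, _ | _⟩ | n) | _ | _ <;>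
    rcases i' with (_ | _) | ⟨_ | _, _ | _⟩ | ⟨_ | _, _ | d', t'⟩ | ⟨_ | _, t', _ | _⟩ |
      (⟨n', _ | _⟩ | n') | _ | _ <;>
    simp only [key, uw, coinc] at h1 h2 ⊢ <;> (try split_ifs at *) <;>
    simp_all

theorem core {C L : Type*} (ze : List Lt) (enc : Lt → L) (henc : Function.Injective enc)
    (F : U → List C) (k : C → List L) (h : ∀ i, (F i).flatMap k = (uw ze i).map enc) :
    ∃ f : U → C, Function.Injective f ∧ ∀ i, f i ∈ F i := by
  classical
  have el : ∀ i ℓ, ∃ f, ℓ ∈ uw ze i → f ∈ F i ∧ enc ℓ ∈ k f := by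
    intro i ℓ
    by_cases hl : ℓ ∈ uw ze i
    · have : enc ℓ ∈ (F i).flatMap k := by
        rw [h]
        exact List.mem_map_of_mem hl
      obtain ⟨f, hf1, hf2⟩ := List.mem_flatMap.1 this
      exact ⟨f, fun _ => ⟨hf1, hf2⟩⟩
    · have : ∃ f, f ∈ F .S := by
        have : enc (hat false) ∈ (F .S).flatMap k := by
          rw [h]
          simp [uw]
        obtain ⟨f, hf1, hf2⟩ := List.mem_flatMap.1 this
        exact ⟨f, hf1⟩
      obtain ⟨f, _⟩ := this
      exact ⟨f, fun h => absurd h hl⟩
  choose elt helt using el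
  have back : ∀ i f ℓ, f ∈ F i → enc ℓ ∈ k f → ℓ ∈ uw ze i := by
    intro i f ℓ h1 h2
    have : enc ℓ ∈ (F i).flatMap k := List.mem_flatMap.2 ⟨f, h1, h2⟩
    rw [h] at this
    obtain ⟨a, ha, hb⟩ := List.mem_map.1 this
    rw [← henc hb]
    exact ha
  let f1 : Bool := decide (elt (.I true) (c true) = elt (.C false true) (c true))
  let f2 : Bool := decide (elt (.C false false) (c false) = elt (.I false) (c false))
  let f3 : ℕ → Bool := fun t =>
    decide (elt (.P false t true) (x false true t) = elt (.T (.inl (t, true))) (x false true t))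
  let f4 : ℕ → Bool := fun t =>
    decide (elt (.T (.inl (t, false))) (x false false t) = elt (.P false t false) (x false false t))
  have hkey : ∀ i, key f1 f2 f3 f4 i ∈ uw ze i := key_mem ze f1 f2 f3 f4
  have hco : ∀ i i', coinc f1 f2 f3 f4 i i' →
      elt i (key f1 f2 f3 f4 i) ≠ elt i' (key f1 f2 f3 f4 i') := by
    intro i i' h
    rcases h with ⟨h, rfl, rfl⟩ | ⟨h, rfl, rfl⟩ | ⟨t, h, rfl, rfl⟩ | ⟨t, h, rfl, rfl⟩ <;>
      · simp only [key, h, Bool.false_eq_true, if_false]
        simpa [f1, f2, f3, f4] using h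
  refine ⟨fun i => elt i (key f1 f2 f3 f4 i), ?_, fun i => (helt i _ (hkey i)).1⟩
  intro i i' hii
  simp only at hii
  have h1 : key f1 f2 f3 f4 i ∈ uw ze i' := by
    apply back i' (elt i' (key f1 f2 f3 f4 i')) _ (helt i' _ (hkey i')).1
    rw [← hii]
    exact (helt i _ (hkey i)).2
  have h2 : key f1 f2 f3 f4 i' ∈ uw ze i := by
    apply back i (elt i (key f1 f2 f3 f4 i)) _ (helt i _ (hkey i)).1
    rw [hii]
    exact (helt i' _ (hkey i')).2
  rcases key_sep ze f1 f2 f3 f4 i i' h1 h2 with h | h | h
  · exact h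
  · exact absurd hii (hco _ _ h)
  · exact absurd hii.symm (hco _ _ h)

theorem sub_family {ι C L : Type*} (ze : List Lt) (enc : Lt → L)
    (henc : Function.Injective enc) (e : ι → U) (he : Function.Injective e)
    (F : ι → List C) (k : C → List L) (h : ∀ i, (F i).flatMap k = (uw ze (e i)).map enc) :
    ∃ f : ι → C, Function.Injective f := by
  classical
  let F' : U → List (C ⊕ U) := fun u =>
    if h : ∃ i, e i = u then (F h.choose).map Sum.inl else [Sum.inr u]
  let k' : C ⊕ U → List L := Sum.elim k (fun u => (uw ze u).map enc)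
  have hF' : ∀ i, F' (e i) = (F i).map Sum.inl := by
    intro i
    have hi : ∃ j, e j = e i := ⟨i, rfl⟩
    simp only [F', dif_pos hi]
    rw [he hi.choose_spec]
  obtain ⟨f, hf, hf2⟩ := core ze enc henc F' k' (by
    intro u
    by_cases hu : ∃ i, e i = u
    · obtain ⟨i, rfl⟩ := hu
      rw [hF', List.flatMap_map, ← h]
      rfl
    · simp [F', dif_neg hu, k'])
  have : ∀ i, ∃ a, f (e i) = Sum.inl a := by
    intro i
    have := hf2 (e i)
    rw [hF'] at this
    obtain ⟨a, _, ha⟩ := List.mem_map.1 this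
    exact ⟨a, ha.symm⟩
  choose f' hf' using this
  refine ⟨f', fun i j hij => he (hf ?_)⟩
  rw [hf', hf', hij]

end Pool.Agent.Helper247.Elem
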