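import Mathlib
import Pool.Agent.Helper247.Elem.Rank

/-!
The instance of the Post correspondence problem built from the domino system.
-/

set_option autoImplicit false

namespace Pool.Agent.Helper247.Elem

open Lt Relation

variable (A : Mach) (n0 : ℕ) (bits : List Bool)

/-- Indices of the instance: the normal rules, the start and the end. -/
abbrev Full := Rule A.N A.Tr ⊕ Bool

/-- First list. -/
def GG : Full A → List Lt
  | .inl r => gw A r
  | .inr false => [hat false]
  | .inr true => rs (z0 n0 bits) ++ [hat true]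

/-- Second list. -/
def HH : Full A → List Lt
  | .inl r => hw A r
  | .inr false => hat false :: z0 n0 bits
  | .inr true => [hat true]

/-- Duality on indices. -/
def df : Full A → Full A
  | .inl r => .inl (dr A r)
  | .inr b => .inr (!b)

theorem GG_df (f : Full A) : GG A n0 bits (df A f) = rs (HH A n0 bits f) := by
  rcases f with r | _ | _
  · simp [GG, HH, df, gw_dr]
  · simp [GG, HH, df]
  · simp [GG, HH, df]

theorem HH_eq (f : Full A) : HH A n0 bits f = rs (GG A n0 bits (df A f)) := by
  rw [GG_df, rs_rs]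

theorem dual_dual (δ : A.Tr) : A.dual (A.dual δ) = δ := by
  apply A.src_inj
  rw [A.src_dual, A.tgt_dual, du'_du]

theorem df_inj : Function.Injective (df A) := by
  have : Function.Involutive (df A) := by
    intro f
    rcases f with (_ | _ | _ | _ | δ) | b
    all_goals simp [df, dr, dual_dual]
  exact this.injective

/-- Embedding of the indices in the universal family. -/
def toU : Full A → U
  | .inl (.I j) => .I j
  | .inl (.C s j) => .C s j
  | .inl (.Y s d t) => .Y s d t
  | .inl (.P s t j) => .P s t j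
  | .inl (.T δ) => .T (A.src δ)
  | .inr false => .S
  | .inr true => .E

theorem toU_inj : Function.Injective (toU A) := by
  intro a b h
  rcases a with (_ | _ | _ | _ | δ) | _ | _ <;> rcases b with (_ | _ | _ | _ | δ') | _ | _ <;>
    simp_all [toU, Fin.ext_iff]
  exact A.src_inj h

theorem GG_toU (f : Full A) : GG A n0 bits f = uw (rs (z0 n0 bits)) (toU A f) := by
  rcases f with (j | ⟨_ | _, j⟩ | ⟨_ | _, ⟨_ | d, hd⟩, t⟩ | ⟨_ | _, t, j⟩ | δ) | _ | _
  all_goals simp [GG, toU, uw, gw, Yin]
  rcases A.src δ with ⟨n, j⟩ | n <;> simp [srcW]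

theorem elem_GG {C L : Type*} (enc : Lt → L) (henc : Function.Injective enc)
    (F : Full A → List C) (k : C → List L)
    (h : ∀ i, (F i).flatMap k = (GG A n0 bits i).map enc) :
    ∃ f : Full A → C, Function.Injective f :=
  sub_family (rs (z0 n0 bits)) enc henc (toU A) (toU_inj A) F k
    (fun i => by rw [h, GG_toU])

theorem elem_HH {C L : Type*} (enc : Lt → L) (henc : Function.Injective enc)
    (F : Full A → List C) (k : C → List L)
    (h : ∀ i, (F i).flatMap k = (HH A n0 bits i).map enc) :
    ∃ f : Full A → C, Function.Injective f := by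
  refine sub_family (rs (z0 n0 bits)) (fun a => enc a.star)
    (fun a b hab => ?_) (fun i => toU A (df A i))
    ((toU_inj A).comp (df_inj A)) (fun i => (F i).reverse) (fun a => (k a).reverse) (fun i => ?_)
  · have := henc hab
    rw [← Lt.star_star a, ← Lt.star_star b, this]
  · rw [← GG_toU, GG_df]
    have h1 := congrArg List.reverse (h i)
    rw [List.reverse_flatMap] at h1
    simp only [rs, List.map_reverse, List.map_map, Function.comp_def, Lt.star_star]
    exact h1

/-- A run of the overflow gives words of rules. -/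
theorem reach_word {z z' : List Lt} (h : Reach A z z') :
    ∃ w : List (Rule A.N A.Tr), z ++ w.flatMap (hw A) = w.flatMap (gw A) ++ z' := by
  induction h using ReflTransGen.head_induction_on with
  | refl => exact ⟨[], by simp⟩
  | head h1 _ ih =>
    obtain ⟨r, t, rfl, rfl⟩ := h1
    obtain ⟨w, hw'⟩ := ih
    refine ⟨r :: w, ?_⟩
    simp only [List.flatMap_cons, List.append_assoc] at hw' ⊢
    rw [← hw']

theorem solution_of_reach (h : Reach A (z0 n0 bits) (rs (z0 n0 bits))) :
    ∃ w : List (Full A), w ≠ [] ∧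
      w.flatMap (GG A n0 bits) = w.flatMap (HH A n0 bits) := by
  obtain ⟨w, hw'⟩ := reach_word A h
  refine ⟨.inr false :: (w.map .inl ++ [.inr true]), by simp, ?_⟩
  have e1 : (w.map Sum.inl).flatMap (GG A n0 bits) = w.flatMap (gw A) := by
    rw [List.flatMap_map]; rfl
  have e2 : (w.map Sum.inl).flatMap (HH A n0 bits) = w.flatMap (hw A) := by
    rw [List.flatMap_map]; rfl
  simp only [List.flatMap_cons, List.flatMap_append, e1, e2, List.flatMap_nil,
    List.append_nil]
  simp only [GG, HH, List.cons_append, List.nil_append]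
  rw [← List.append_assoc (List.flatMap (gw A) w), ← hw']
  simp

theorem rs_z0 : ∃ t, rs (z0 n0 bits) = rho true :: y true n0 0 :: t := by
  refine ⟨rs (kap :: Q bits), ?_⟩
  simp [z0]

/-- The words of the first list are pairwise incomparable. -/
theorem comp_GG (h0 : ∀ δ, A.src δ ≠ .inr n0) (r : Rule A.N A.Tr) (f : Full A)
    (X Y : List Lt) (h : gw A r ++ X = GG A n0 bits f ++ Y) : f = .inl r := by
  obtain ⟨t0, ht0⟩ := rs_z0 n0 bits
  have key : ∀ δ δ' : A.Tr, ∀ X Y : List Lt, srcW (A.src δ) ++ X = srcW (A.src δ') ++ Y →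
      δ = δ' := by
    intro δ δ' X Y h
    apply A.src_inj
    rcases h1 : A.src δ with ⟨n, j⟩ | n <;> rcases h2 : A.src δ' with ⟨n', j'⟩ | n' <;>
      simp_all [srcW]
  rcases f with r' | _ | _
  · rcases r with (j | ⟨_ | _, j⟩ | ⟨_ | _, ⟨_ | d, hd⟩, t⟩ | ⟨_ | _, t, j⟩ | δ) <;>
      rcases r' with (j' | ⟨_ | _, j'⟩ | ⟨_ | _, ⟨_ | d', hd'⟩, t'⟩ | ⟨_ | _, t', j'⟩ | δ') <;>
      simp only [gw, GG, Yin] at h ⊢ <;>
      first
        | (simp_all [Fin.ext_iff]; done)
        | (rcases h1 : A.src δ with ⟨n, j⟩ | n <;> simp_all [srcW]; done)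
        | (rcases h2 : A.src δ' with ⟨n, j⟩ | n <;> simp_all [srcW]; done)
        | (rw [key δ δ' X Y h])
  · exfalso
    rcases r with (j | ⟨_ | _, j⟩ | ⟨_ | _, ⟨_ | d, hd⟩, t⟩ | ⟨_ | _, t, j⟩ | δ) <;>
      simp only [gw, GG, Yin] at h <;> first
        | (simp_all; done)
        | (rcases h1 : A.src δ with ⟨n, j⟩ | n <;> simp_all [srcW]; done)
  · exfalso
    simp only [GG, ht0] at h
    rcases r with (j | ⟨_ | _, j⟩ | ⟨_ | _, ⟨_ | d, hd⟩, t⟩ | ⟨_ | _, t, j⟩ | δ) <;>
      simp only [gw, Yin] at h <;> first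
        | (simp_all; done)
        | (rcases h1 : A.src δ with ⟨n, j⟩ | n
           · simp_all [srcW]
           · simp only [h1, srcW, List.cons_append, List.cons.injEq, Lt.y.injEq] at h
             exact h0 δ (by rw [h1, h.2.1.2.1]))

/-- Only the start pair has equal first letters. -/
theorem head_ne (f : Full A) (X Y : List Lt)
    (h : GG A n0 bits f ++ X = HH A n0 bits f ++ Y) : f = .inr false := by
  obtain ⟨t0, ht0⟩ := rs_z0 n0 bits
  rcases f with (j | ⟨_ | _, j⟩ | ⟨_ | _, ⟨_ | d, hd⟩, t⟩ | ⟨_ | _, t, j⟩ | δ) | _ | _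
  all_goals simp only [GG, HH, gw, hw, Yin, Yout] at h ⊢
  all_goals first
    | (simp_all; done)
    | (rcases h1 : A.src δ with ⟨n, j⟩ | n <;> rcases h2 : A.tgt δ with n' | ⟨n', j'⟩ <;>
        simp_all [srcW, tgtW]; done)

/-- Infinite runs. -/
def Inf (z : List Lt) : Prop :=
  ∃ P : List Lt → Prop, P z ∧ ∀ z, P z → ∃ z', Step A z z' ∧ P z'

theorem inf_no_solution (h0 : ∀ δ, A.src δ ≠ .inr n0) (hinf : Inf A (z0 n0 bits)) :
    ¬ ∃ w : List (Full A), w ≠ [] ∧
      w.flatMap (GG A n0 bits) = w.flatMap (HH A n0 bits) := by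
  rintro ⟨w, hne, hw'⟩
  obtain ⟨P, hP0, hP⟩ := hinf
  have key : ∀ (w : List (Full A)) (z : List Lt), P z →
      w.flatMap (GG A n0 bits) ≠ z ++ w.flatMap (HH A n0 bits) := by
    intro w
    induction w with
    | nil =>
      intro z hz h
      obtain ⟨z', ⟨r, t, h1, h2⟩, _⟩ := hP z hz
      simp only [List.flatMap_nil, List.append_nil] at h
      rw [← h] at h1
      have := congrArg List.length h1
      have hg : 0 < (gw A r).length := by
        rcases r with (j | ⟨_ | _, j⟩ | ⟨_ | _, ⟨_ | d, hd⟩, t⟩ | ⟨_ | _, t, j⟩ | δ) <;>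
          simp [gw, Yin]
        rcases A.src δ with ⟨n, j⟩ | n <;> simp [srcW]
      simp at this
      omega
    | cons f w ih =>
      intro z hz h
      obtain ⟨z', ⟨r, t, h1, h2⟩, hz'⟩ := hP z hz
      simp only [List.flatMap_cons] at h
      rw [h1, List.append_assoc] at h
      have h3 := comp_GG A n0 bits h0 r f _ _ h.symm
      subst h3
      simp only [GG, HH] at h
      have h4 := List.append_cancel_left h
      apply ih z' hz'
      rw [h2, h4]
      simp
  rcases w with _ | ⟨f, w⟩
  · exact hne rfl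
  · simp only [List.flatMap_cons] at hw'
    have h1 := head_ne A n0 bits f _ _ hw'
    subst h1
    simp only [GG, HH, List.cons_append, List.nil_append, List.cons.injEq, true_and] at hw'
    exact key w _ hP0 hw'

end Pool.Agent.Helper247.Elem
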