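import Mathlib
import Pool.Agent.Helper247.Elem.Pcp

/-!
Read-write machines and their translation into domino systems.
-/

set_option autoImplicit false

namespace Pool.Agent.Helper247.Elem

open Lt Relation

/-- A reversible machine whose store is a queue of symbols. In a reading point it reads the first
symbol, a transition may write a symbol at the end and enter a writing point. -/
structure RW (α : Type) where
  /-- Reading points. -/
  RP : Type
  /-- Writing points. -/
  WP : Type
  /-- Transitions. -/
  Tr : Type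
  /-- The source of a transition. -/
  src : Tr → (RP × α) ⊕ WP
  /-- The target of a transition. -/
  tgt : Tr → RP ⊕ (WP × α)
  src_inj : Function.Injective src
  tgt_inj : Function.Injective tgt

namespace RW

variable {α : Type} (B : RW α)

/-- Configurations. -/
inductive Cfg
  | R (r : B.RP) (z : List α)
  | W (w : B.WP) (z : List α)

/-- The configuration after a transition. -/
def post : B.RP ⊕ (B.WP × α) → List α → B.Cfg
  | .inl r, z => .R r z
  | .inr (w, b), z => .W w (z ++ [b])

/-- One step. -/
inductive CStep : B.Cfg → B.Cfg → Prop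
  | rd (δ : B.Tr) (r : B.RP) (a : α) (z : List α) (h : B.src δ = .inl (r, a)) :
      CStep (.R r (a :: z)) (B.post (B.tgt δ) z)
  | wr (δ : B.Tr) (w : B.WP) (z : List α) (h : B.src δ = .inr w) :
      CStep (.W w z) (B.post (B.tgt δ) z)

theorem cstep_rd (δ : B.Tr) (r : B.RP) (a : α) (z : List α) (h : B.src δ = .inl (r, a))
    (c : B.Cfg) (hc : B.post (B.tgt δ) z = c) : B.CStep (.R r (a :: z)) c := by
  subst hc
  exact .rd δ r a z h

theorem cstep_wr (δ : B.Tr) (w : B.WP) (z : List α) (h : B.src δ = .inr w)
    (c : B.Cfg) (hc : B.post (B.tgt δ) z = c) : B.CStep (.W w z) c := by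
  subst hc
  exact .wr δ w z h

end RW

section total

variable (B : RW Bool) (N : ℕ) (ix : B.RP ⊕ B.WP → ℕ)

/-- Sources as numbers. -/
def embS : (B.RP × Bool) ⊕ B.WP → Src
  | .inl (r, b) => .inl (ix (.inl r), b)
  | .inr w => .inr (ix (.inr w))

/-- Targets as numbers. -/
def embT : B.RP ⊕ (B.WP × Bool) → Tgt
  | .inl r => .inl (ix (.inl r))
  | .inr (w, b) => .inr (ix (.inr w), b)

theorem embS_inj (h : Function.Injective ix) : Function.Injective (embS B ix) := by
  intro a b hab
  rcases a with ⟨r, b1⟩ | w <;> rcases b with ⟨r', b2⟩ | w' <;>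
    simp only [embS, Sum.inl.injEq, Sum.inr.injEq, Prod.mk.injEq, reduceCtorEq] at hab
  · have := h hab.1
    simp only [Sum.inl.injEq] at this
    rw [this, hab.2]
  · have := h hab
    simp only [Sum.inr.injEq] at this
    rw [this]

theorem embT_inj (h : Function.Injective ix) : Function.Injective (embT B ix) := by
  intro a b hab
  rcases a with r | ⟨w, b1⟩ <;> rcases b with r' | ⟨w', b2⟩ <;>
    simp only [embT, Sum.inl.injEq, Sum.inr.injEq, Prod.mk.injEq, reduceCtorEq] at hab
  · have := h hab
    simp only [Sum.inl.injEq] at this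
    rw [this]
  · have := h hab.1
    simp only [Sum.inr.injEq] at this
    rw [this, hab.2]

theorem embS_embT (h : Function.Injective ix) (s : (B.RP × Bool) ⊕ B.WP)
    (t : B.RP ⊕ (B.WP × Bool)) : embS B ix s ≠ du' (embT B ix t) := by
  intro hst
  rcases s with ⟨r, b⟩ | w <;> rcases t with r' | ⟨w', b'⟩ <;>
    simp only [embS, embT, du', Sum.inl.injEq, Sum.inr.injEq, Prod.mk.injEq, reduceCtorEq] at hst
  · have := h hst.1
    simp at this
  · have := h hst
    simp at this

theorem embS_lt (hN : ∀ p, ix p < N) (s : (B.RP × Bool) ⊕ B.WP) :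
    (∀ n, embS B ix s = .inr n → n < N) ∧ (∀ n b, embS B ix s = .inl (n, b) → n < N) := by
  rcases s with ⟨r, b⟩ | w
  · refine ⟨fun n hn => by simp [embS] at hn, fun n b hn => ?_⟩
    simp only [embS, Sum.inl.injEq, Prod.mk.injEq] at hn
    rw [← hn.1]; exact hN _
  · refine ⟨fun n hn => ?_, fun n b hn => by simp [embS] at hn⟩
    simp only [embS, Sum.inr.injEq] at hn
    rw [← hn]; exact hN _

theorem embT_lt (hN : ∀ p, ix p < N) (s : B.RP ⊕ (B.WP × Bool)) :
    (∀ n, du' (embT B ix s) = .inr n → n < N) ∧
      (∀ n b, du' (embT B ix s) = .inl (n, b) → n < N) := by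
  rcases s with r | ⟨w, b⟩
  · refine ⟨fun n hn => ?_, fun n b hn => by simp [embT, du'] at hn⟩
    simp only [embT, du', Sum.inr.injEq] at hn
    rw [← hn]; exact hN _
  · refine ⟨fun n hn => by simp [embT, du'] at hn, fun n b hn => ?_⟩
    simp only [embT, du', Sum.inl.injEq, Prod.mk.injEq] at hn
    rw [← hn.1]; exact hN _

/-- The total machine: forward transitions, their duals and the switch. -/
def total (h : Function.Injective ix) (hN : ∀ p, ix p < N) (sw : B.RP × Bool)
    (hsw : ∀ δ, B.src δ ≠ .inl sw) : Mach where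
  N := N
  Tr := B.Tr ⊕ B.Tr ⊕ Unit
  src := fun δ => match δ with
    | .inl δ => embS B ix (B.src δ)
    | .inr (.inl δ) => du' (embT B ix (B.tgt δ))
    | .inr (.inr _) => embS B ix (.inl sw)
  tgt := fun δ => match δ with
    | .inl δ => embT B ix (B.tgt δ)
    | .inr (.inl δ) => du (embS B ix (B.src δ))
    | .inr (.inr _) => du (embS B ix (.inl sw))
  dual := fun δ => match δ with
    | .inl δ => .inr (.inl δ)
    | .inr (.inl δ) => .inl δ
    | .inr (.inr _) => .inr (.inr ())
  src_inj := by
    intro δ δ' hd
    rcases δ with δ | δ | _ <;> rcases δ' with δ' | δ' | _ <;> simp only at hd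
    · rw [B.src_inj (embS_inj B ix h hd)]
    · exact absurd hd (embS_embT B ix h _ _)
    · exact absurd (embS_inj B ix h hd) (hsw _)
    · exact absurd hd.symm (embS_embT B ix h _ _)
    · have := congrArg du hd
      simp only [du_du'] at this
      rw [B.tgt_inj (embT_inj B ix h this)]
    · exact absurd hd.symm (embS_embT B ix h _ _)
    · exact absurd (embS_inj B ix h hd).symm (hsw _)
    · exact absurd hd (embS_embT B ix h _ _)
    · rfl
  tgt_inj := by
    have e : ∀ s t, embT B ix t ≠ du (embS B ix s) := by
      intro s t hst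
      apply embS_embT B ix h s t
      rw [hst, du'_du]
    have e2 : ∀ s s', du (embS B ix s) = du (embS B ix s') → s = s' := by
      intro s s' hss
      have := congrArg du' hss
      simp only [du'_du] at this
      exact embS_inj B ix h this
    intro δ δ' hd
    rcases δ with δ | δ | _ <;> rcases δ' with δ' | δ' | _ <;> simp only at hd
    · rw [B.tgt_inj (embT_inj B ix h hd)]
    · exact absurd hd (e _ _)
    · exact absurd hd (e _ _)
    · exact absurd hd.symm (e _ _)
    · rw [B.src_inj (e2 _ _ hd)]
    · exact absurd (e2 _ _ hd) (hsw _)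
    · exact absurd hd.symm (e _ _)
    · exact absurd (e2 _ _ hd).symm (hsw _)
    · rfl
  src_dual := by
    intro δ
    rcases δ with δ | δ | _ <;> simp
  tgt_dual := by
    intro δ
    rcases δ with δ | δ | _ <;> simp
  src_lt := by
    intro δ n hn
    rcases δ with δ | δ | _ <;> simp only at hn
    · exact (embS_lt B N ix hN _).1 n hn
    · exact (embT_lt B N ix hN _).1 n hn
    · exact (embS_lt B N ix hN _).1 n hn
  src_lt' := by
    intro δ n b hn
    rcases δ with δ | δ | _ <;> simp only at hn
    · exact (embS_lt B N ix hN _).2 n b hn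
    · exact (embT_lt B N ix hN _).2 n b hn
    · exact (embS_lt B N ix hN _).2 n b hn

variable (h : Function.Injective ix) (hN : ∀ p, ix p < N) (sw : B.RP × Bool)
    (hsw : ∀ δ, B.src δ ≠ .inl sw)

/-- Configurations as numbered configurations. -/
def emb : B.Cfg → Cfg
  | .R r z => .R (ix (.inl r)) z
  | .W w z => .W (ix (.inr w)) z

theorem emb_post (t : B.RP ⊕ (B.WP × Bool)) (z : List Bool) :
    emb B ix (B.post t z) = post (embT B ix t) z := by
  rcases t with r | ⟨w, b⟩ <;> rfl

theorem emb_step {c c' : B.Cfg} (hc : B.CStep c c') :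
    Reach₁ (total B N ix h hN sw hsw) (rep (emb B ix c)) (rep (emb B ix c')) := by
  cases hc with
  | rd δ r a z hs =>
    have := trans_read (total B N ix h hN sw hsw) (.inl δ) (ix (.inl r)) a
      (by simp only [total, hs, embS]) z
    rw [emb_post]
    exact this
  | wr δ w z hs =>
    have := trans_write (total B N ix h hN sw hsw) (.inl δ) (ix (.inr w))
      (by simp only [total, hs, embS]) z
    rw [emb_post]
    exact this

theorem emb_reach {c c' : B.Cfg} (hc : ReflTransGen B.CStep c c') :
    Reach (total B N ix h hN sw hsw) (rep (emb B ix c)) (rep (emb B ix c')) := by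
  induction hc with
  | refl => exact ReflTransGen.refl
  | tail _ h2 ih => exact ih.trans (emb_step B N ix h hN sw hsw h2).to_reflTransGen

theorem emb_reach₁ {c c' : B.Cfg} (hc : TransGen B.CStep c c') :
    Reach₁ (total B N ix h hN sw hsw) (rep (emb B ix c)) (rep (emb B ix c')) := by
  induction hc with
  | single h2 => exact emb_step B N ix h hN sw hsw h2
  | tail _ h2 ih => exact ih.trans (emb_step B N ix h hN sw hsw h2)

/-- The positive case. -/
theorem total_pos (start : B.RP) (bits z : List Bool) (hz : z.reverse = z)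
    (hr : ReflTransGen B.CStep (.R start bits) (.R sw.1 (sw.2 :: z))) :
    ∃ w : List (Full (total B N ix h hN sw hsw)), w ≠ [] ∧
      w.flatMap (GG _ (ix (.inl start)) bits) = w.flatMap (HH _ (ix (.inl start)) bits) := by
  apply solution_of_reach
  refine reach_end (total B N ix h hN sw hsw) (ix (.inl start)) bits (.inr (.inr ()))
    (ix (.inl sw.1)) sw.2 rfl rfl z hz ?_
  exact emb_reach B N ix h hN sw hsw hr

theorem total_start (start : B.RP) (hstart : ∀ δ, B.tgt δ ≠ .inl start)
    (δ : (total B N ix h hN sw hsw).Tr) :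
    (total B N ix h hN sw hsw).src δ ≠ .inr (ix (.inl start)) := by
  intro hδ
  rcases δ with δ | δ | _ <;> simp only [total] at hδ
  · rcases hs : B.src δ with ⟨r, b⟩ | w <;>
      simp only [hs, embS, Sum.inr.injEq, reduceCtorEq] at hδ
    have := h hδ
    simp at this
  · rcases ht : B.tgt δ with r | ⟨w, b⟩ <;>
      simp only [ht, embT, du', Sum.inr.injEq, reduceCtorEq] at hδ
    have := h hδ
    simp only [Sum.inl.injEq] at this
    exact hstart δ (by rw [ht, this])
  · simp [embS] at hδ

/-- The negative case. -/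
theorem total_neg (start : B.RP) (hstart : ∀ δ, B.tgt δ ≠ .inl start) (bits : List Bool)
    (P : B.Cfg → Prop) (hP0 : P (.R start bits))
    (hP : ∀ c, P c → ∃ c', TransGen B.CStep c c' ∧ P c') :
    ¬ ∃ w : List (Full (total B N ix h hN sw hsw)), w ≠ [] ∧
      w.flatMap (GG _ (ix (.inl start)) bits) = w.flatMap (HH _ (ix (.inl start)) bits) := by
  apply inf_no_solution _ _ _ (total_start B N ix h hN sw hsw start hstart)
  refine ⟨fun z => ∃ c, P c ∧ Reach (total B N ix h hN sw hsw) z (rep (emb B ix c)),
    ⟨_, hP0, z0_reach _ _ _⟩, ?_⟩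
  rintro z ⟨c, hc, hz⟩
  rcases ReflTransGen.cases_head hz with rfl | ⟨z', h1, h2⟩
  · obtain ⟨c', hcc, hc'⟩ := hP c hc
    have := emb_reach₁ B N ix h hN sw hsw hcc
    obtain ⟨z', h1, h2⟩ := TransGen.head'_iff.1 this
    exact ⟨z', h1, c', hc', h2⟩
  · exact ⟨z', h1, c, hc, h2⟩

end total

end Pool.Agent.Helper247.Elem
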