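import Mathlib
import Pool.Agent.Helper247.Elem.RW

/-!
Translation of read-write machines over a finite alphabet into machines over the Booleans.
-/

set_option autoImplicit false

namespace Pool.Agent.Helper247.Elem

open Relation

variable {α : Type} (B : RW α) (m : ℕ) (e : α → Fin (m + 1))

/-- Transitions of the compiled machine. -/
inductive CTr
  | rd0 (r : B.RP)
  | rd1 (r : B.RP) (i : Fin m)
  | tr (δ : B.Tr)
  | w0 (w : B.WP)
  | w1 (w : B.WP) (i : Fin m)

/-- The source of a symbol transition. -/
def cS : (B.RP × α) ⊕ B.WP →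
    ((B.RP × Option (Fin (m + 1))) × Bool) ⊕ (B.WP × Option (Fin (m + 1)))
  | .inl (r, a) => .inl ((r, some (e a)), false)
  | .inr w => .inr (w, none)

/-- The target of a symbol transition. -/
def cT : B.RP ⊕ (B.WP × α) →
    (B.RP × Option (Fin (m + 1))) ⊕ ((B.WP × Option (Fin (m + 1))) × Bool)
  | .inl r => .inl (r, none)
  | .inr (w, a) => .inr ((w, some (e a)), false)

/-- The source of a compiled transition. -/
def csrc : CTr B m →
    ((B.RP × Option (Fin (m + 1))) × Bool) ⊕ (B.WP × Option (Fin (m + 1)))
  | .rd0 r => .inl ((r, none), false)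
  | .rd1 r i => .inl ((r, some i.castSucc), true)
  | .tr δ => cS B m e (B.src δ)
  | .w0 w => .inr (w, some 0)
  | .w1 w i => .inr (w, some i.succ)

/-- The target of a compiled transition. -/
def ctgt : CTr B m →
    (B.RP × Option (Fin (m + 1))) ⊕ ((B.WP × Option (Fin (m + 1))) × Bool)
  | .rd0 r => .inl (r, some 0)
  | .rd1 r i => .inl (r, some i.succ)
  | .tr δ => cT B m e (B.tgt δ)
  | .w0 w => .inr ((w, none), false)
  | .w1 w i => .inr ((w, some i.castSucc), true)

theorem cS_inj (he : Function.Injective e) : Function.Injective (cS B m e) := by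
  intro a b h
  rcases a with ⟨r, a⟩ | w <;> rcases b with ⟨r', a'⟩ | w' <;> simp_all [cS]
  exact he h.2

theorem cT_inj (he : Function.Injective e) : Function.Injective (cT B m e) := by
  intro a b h
  rcases a with r | ⟨w, a⟩ <;> rcases b with r' | ⟨w', a'⟩ <;> simp_all [cT]
  exact he h.2

/-- The compiled machine. -/
def compile (he : Function.Injective e) : RW Bool where
  RP := B.RP × Option (Fin (m + 1))
  WP := B.WP × Option (Fin (m + 1))
  Tr := CTr B m
  src := csrc B m e
  tgt := ctgt B m e
  src_inj := by
    intro δ δ' h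
    rcases δ with r | ⟨r, i⟩ | δ | w | ⟨w, i⟩ <;> rcases δ' with r' | ⟨r', i'⟩ | δ' | w' | ⟨w', i'⟩ <;>
      simp only [csrc] at h
    all_goals first
      | (rw [B.src_inj (cS_inj B m e he h)])
      | (rcases hs : B.src δ with ⟨r1, a1⟩ | w1 <;> rw [hs] at h <;> simp [cS] at h)
      | (rcases hs : B.src δ' with ⟨r1, a1⟩ | w1 <;> rw [hs] at h <;> simp [cS] at h)
      | (simp_all [Fin.ext_iff])
  tgt_inj := by
    intro δ δ' h
    rcases δ with r | ⟨r, i⟩ | δ | w | ⟨w, i⟩ <;> rcases δ' with r' | ⟨r', i'⟩ | δ' | w' | ⟨w', i'⟩ <;>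
      simp only [ctgt] at h
    all_goals first
      | (rw [B.tgt_inj (cT_inj B m e he h)])
      | (rcases hs : B.tgt δ with r1 | ⟨w1, a1⟩ <;> rw [hs] at h <;> simp [cT] at h)
      | (rcases hs : B.tgt δ' with r1 | ⟨w1, a1⟩ <;> rw [hs] at h <;> simp [cT] at h)
      | (simp_all [Fin.ext_iff])

variable (he : Function.Injective e)

/-- The code of a symbol. -/
def code (a : α) : List Bool := false :: (List.replicate (e a) true ++ [false])

theorem code_reverse (a : α) : (code m e a).reverse = code m e a := by
  simp [code]

/-- Codes of configurations. -/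
def cc : B.Cfg → (compile B m e he).Cfg
  | .R r z => .R (r, none) (z.flatMap (code m e))
  | .W w z => .W (w, none) (z.flatMap (code m e))

theorem read_bits (r : B.RP) : ∀ (k : ℕ) (i : Fin (m + 1)) (hk : i.val + k < m + 1)
    (z : List Bool),
    ReflTransGen (compile B m e he).CStep
      (.R (r, some i) (List.replicate k true ++ z)) (.R (r, some ⟨i.val + k, hk⟩) z) := by
  intro k
  induction k with
  | zero => intro i hk z; exact ReflTransGen.refl
  | succ k ih =>
    intro i hk z
    have h1 := ih ⟨i.val + 1, by omega⟩ (by simp only; omega) z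
    have h2 : (compile B m e he).CStep (.R (r, some i) (List.replicate (k + 1) true ++ z))
        (.R (r, some ⟨i.val + 1, by omega⟩) (List.replicate k true ++ z)) := by
      refine RW.cstep_rd (compile B m e he) (CTr.rd1 r ⟨i.val, by omega⟩) _ _ _ ?_ _ ?_
      · simp [compile, csrc]
      · simp only [compile, ctgt, RW.post, Fin.succ_mk]
        rfl
    refine ReflTransGen.head h2 ?_
    simp only [Nat.add_assoc, Nat.add_comm 1 k] at h1 ⊢
    exact h1

/-- Reading a coded symbol up to its last bit. -/
theorem read_sym (r : B.RP) (a : α) (z : List Bool) :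
    TransGen (compile B m e he).CStep
      (.R (r, none) (code m e a ++ z)) (.R (r, some (e a)) (false :: z)) := by
  have h1 := read_bits B m e he r (e a).val 0 (by simp; omega) (false :: z)
  have h2 : (compile B m e he).CStep (.R (r, none) (code m e a ++ z))
      (.R (r, some 0) (List.replicate (e a) true ++ false :: z)) := by
    have : code m e a ++ z = false :: (List.replicate (e a) true ++ false :: z) := by
      simp [code]
    rw [this]
    exact RW.cstep_rd (compile B m e he) (CTr.rd0 r) _ _ _ rfl _ rfl
  refine TransGen.head' h2 ?_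
  simpa using h1

theorem write_bits (w : B.WP) : ∀ (k : ℕ) (hk : k < m + 1) (z : List Bool),
    ReflTransGen (compile B m e he).CStep
      (.W (w, some ⟨k, hk⟩) z) (.W (w, none) (z ++ (List.replicate k true ++ [false]))) := by
  intro k
  induction k with
  | zero =>
    intro hk z
    refine ReflTransGen.single (RW.cstep_wr (compile B m e he) (CTr.w0 w) _ _ rfl _ ?_)
    simp [compile, ctgt, RW.post]
  | succ k ih =>
    intro hk z
    have h1 := ih (by omega) (z ++ [true])
    have h2 : (compile B m e he).CStep (.W (w, some ⟨k + 1, hk⟩) z)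
        (.W (w, some ⟨k, by omega⟩) (z ++ [true])) :=
      RW.cstep_wr (compile B m e he) (CTr.w1 w ⟨k, by omega⟩) _ _ rfl _ rfl
    refine ReflTransGen.head h2 ?_
    simpa [List.replicate_succ] using h1

theorem post_c (t : B.RP ⊕ (B.WP × α)) (z : List α) :
    ReflTransGen (compile B m e he).CStep
      ((compile B m e he).post (cT B m e t) (z.flatMap (code m e)))
      (cc B m e he (B.post t z)) := by
  rcases t with r | ⟨w, a⟩
  · exact ReflTransGen.refl
  · have := write_bits B m e he w (e a).val (e a).2 (z.flatMap (code m e) ++ [false])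
    simpa [cT, RW.post, cc, code] using this

theorem c_step {c c' : B.Cfg} (h : B.CStep c c') :
    TransGen (compile B m e he).CStep (cc B m e he c) (cc B m e he c') := by
  cases h with
  | rd δ r a z hs =>
    have h1 := read_sym B m e he r a (z.flatMap (code m e))
    have h2 : (compile B m e he).CStep (.R (r, some (e a)) (false :: z.flatMap (code m e)))
        ((compile B m e he).post (cT B m e (B.tgt δ)) (z.flatMap (code m e))) :=
      RW.cstep_rd (compile B m e he) (CTr.tr δ) _ _ _ (by simp [compile, csrc, hs, cS]) _ rfl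
    exact (h1.tail h2).trans_left (post_c B m e he _ _)
  | wr δ w z hs =>
    have h2 : (compile B m e he).CStep (.W (w, none) (z.flatMap (code m e)))
        ((compile B m e he).post (cT B m e (B.tgt δ)) (z.flatMap (code m e))) :=
      RW.cstep_wr (compile B m e he) (CTr.tr δ) _ _ (by simp [compile, csrc, hs, cS]) _ rfl
    exact TransGen.head' h2 (post_c B m e he _ _)

theorem c_reach {c c' : B.Cfg} (h : ReflTransGen B.CStep c c') :
    ReflTransGen (compile B m e he).CStep (cc B m e he c) (cc B m e he c') := by
  induction h with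
  | refl => exact ReflTransGen.refl
  | tail _ h2 ih => exact ih.trans (c_step B m e he h2).to_reflTransGen

theorem c_reach₁ {c c' : B.Cfg} (h : TransGen B.CStep c c') :
    TransGen (compile B m e he).CStep (cc B m e he c) (cc B m e he c') := by
  induction h with
  | single h2 => exact c_step B m e he h2
  | tail _ h2 ih => exact ih.trans (c_step B m e he h2)

theorem compile_sw (sw : B.RP × α) (hsw : ∀ δ, B.src δ ≠ .inl sw)
    (δ : (compile B m e he).Tr) :
    (compile B m e he).src δ ≠ .inl ((sw.1, some (e sw.2)), false) := by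
  intro h
  rcases δ with r | ⟨r, i⟩ | δ | w | ⟨w, i⟩ <;> simp only [compile, csrc] at h
  · simp at h
  · simp at h
  · rcases hs : B.src δ with ⟨r, a⟩ | w <;> rw [hs] at h <;>
      simp only [cS, Sum.inl.injEq, Prod.mk.injEq, Option.some.injEq, reduceCtorEq] at h
    exact hsw δ (by rw [hs, h.1.1, he h.1.2])
  · simp at h
  · simp at h

theorem compile_start (start : B.RP) (hs : ∀ δ, B.tgt δ ≠ .inl start)
    (δ : (compile B m e he).Tr) :
    (compile B m e he).tgt δ ≠ .inl (start, none) := by
  intro h
  rcases δ with r | ⟨r, i⟩ | δ | w | ⟨w, i⟩ <;> simp only [compile, ctgt] at h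
  · simp at h
  · simp at h
  · rcases ht : B.tgt δ with r | ⟨w, a⟩ <;> rw [ht] at h <;>
      simp only [cT, Sum.inl.injEq, Prod.mk.injEq, and_true, reduceCtorEq] at h
    exact hs δ (by rw [ht, h])
  · simp at h
  · simp at h

theorem flatMap_code_reverse (z : List α) :
    (z.flatMap (code m e)).reverse = z.reverse.flatMap (code m e) := by
  rw [List.reverse_flatMap]
  congr 1
  funext a
  exact code_reverse m e a

end Pool.Agent.Helper247.Elem
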