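import Mathlib
import Pool.Agent.Helper247.Elem.Compile
import Pool.Agent.Helper247.Queue

/-!
A reversible read-write machine simulating a queue system, which records its history as a
palindrome.
-/

set_option autoImplicit false

namespace Pool.Agent.Helper247.Elem

open Relation Pool.Agent.Helper247.Queue

/-- The alphabet. -/
inductive Al (S : Type)
  | s (a : S)
  | h (o : Option (S × S))
  | sep

instance {S : Type} [Finite S] : Finite (Al S) := by
  let f : Al S → S ⊕ (Option (S × S)) ⊕ Unit := fun a => match a with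
    | .s a => .inl a
    | .h o => .inr (.inl o)
    | .sep => .inr (.inr ())
  apply Finite.of_injective f
  intro a b h
  cases a <;> cases b <;> simp_all [f]

/-- Reading points. -/
inductive RPt (S : Type)
  | st
  | A
  | B (x : S)
  | C (x y : S)
  | D (x y : S) (o : Option (S × S))

instance {S : Type} [Finite S] : Finite (RPt S) := by
  let f : RPt S → Bool ⊕ S ⊕ (S × S) ⊕ (S × S × Option (S × S)) := fun a => match a with
    | .st => .inl false
    | .A => .inl true
    | .B x => .inr (.inl x)
    | .C x y => .inr (.inr (.inl (x, y)))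
    | .D x y o => .inr (.inr (.inr (x, y, o)))
  apply Finite.of_injective f
  intro a b h
  cases a <;> cases b <;> simp_all [f]

variable {S : Type} (P : S → S → List S)

/-- Writing points. -/
inductive WPt
  | A
  | C (x y : S)
  | P (x y : S) (k : Fin (P x y).length)
  | D (x y : S) (o : Option (S × S))
  | E (x y : S)

instance [Finite S] : Finite (WPt P) := by
  let f : WPt P → Unit ⊕ (S × S) ⊕ (Σ p : S × S, Fin (P p.1 p.2).length) ⊕
      (S × S × Option (S × S)) ⊕ (S × S) := fun a => match a with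
    | .A => .inl ()
    | .C x y => .inr (.inl (x, y))
    | .P x y k => .inr (.inr (.inl ⟨(x, y), k⟩))
    | .D x y o => .inr (.inr (.inr (.inl (x, y, o))))
    | .E x y => .inr (.inr (.inr (.inr (x, y))))
  apply Finite.of_injective f
  intro a b h
  cases a <;> cases b <;> simp [f] at h
  · rfl
  · rw [h.1, h.2]
  · obtain ⟨⟨rfl, rfl⟩, h⟩ := h
    simp only [heq_eq_eq] at h
    rw [h]
  · obtain ⟨rfl, rfl, rfl⟩ := h; rfl
  · rw [h.1, h.2]

/-- Transitions. -/
inductive QTr
  | st
  | wA
  | A (x : S)
  | B (x y : S)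
  | wC (x y : S)
  | C (x y σ : S)
  | P (x y : S) (k : Fin (P x y).length)
  | PD (x y : S)
  | wD (x y : S) (o : Option (S × S))
  | D (x y : S) (o o' : Option (S × S))
  | DE (x y : S) (o : Option (S × S))
  | E (x y : S)

instance [Finite S] : Finite (QTr P) := by
  let f : QTr P → Bool ⊕ S ⊕ (S × S) ⊕ (S × S) ⊕ (S × S × S) ⊕
      (Σ p : S × S, Fin (P p.1 p.2).length) ⊕ (S × S) ⊕ (S × S × Option (S × S)) ⊕
      (S × S × Option (S × S) × Option (S × S)) ⊕ (S × S × Option (S × S)) ⊕ (S × S) :=
    fun a => match a with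
    | .st => .inl false
    | .wA => .inl true
    | .A x => .inr (.inl x)
    | .B x y => .inr (.inr (.inl (x, y)))
    | .wC x y => .inr (.inr (.inr (.inl (x, y))))
    | .C x y σ => .inr (.inr (.inr (.inr (.inl (x, y, σ)))))
    | .P x y k => .inr (.inr (.inr (.inr (.inr (.inl ⟨(x, y), k⟩)))))
    | .PD x y => .inr (.inr (.inr (.inr (.inr (.inr (.inl (x, y)))))))
    | .wD x y o => .inr (.inr (.inr (.inr (.inr (.inr (.inr (.inl (x, y, o))))))))
    | .D x y o o' => .inr (.inr (.inr (.inr (.inr (.inr (.inr (.inr (.inl (x, y, o, o')))))))))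
    | .DE x y o =>
      .inr (.inr (.inr (.inr (.inr (.inr (.inr (.inr (.inr (.inl (x, y, o))))))))))
    | .E x y => .inr (.inr (.inr (.inr (.inr (.inr (.inr (.inr (.inr (.inr (x, y))))))))))
  apply Finite.of_injective f
  intro a b h
  cases a <;> cases b <;> simp [f] at h
  all_goals first
    | rfl
    | (obtain ⟨⟨rfl, rfl⟩, h⟩ := h
       simp only [heq_eq_eq] at h
       rw [h]
       done)
    | (obtain ⟨rfl, rfl, rfl, rfl⟩ := h; rfl)
    | (obtain ⟨rfl, rfl, rfl⟩ := h; rfl)
    | (obtain ⟨rfl, rfl⟩ := h; rfl)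
    | (rw [h])

/-- Sources. -/
def qsrc : QTr P → (RPt S × Al S) ⊕ WPt P
  | .st => .inl (.st, .h none)
  | .wA => .inr .A
  | .A x => .inl (.A, .s x)
  | .B x y => .inl (.B x, .s y)
  | .wC x y => .inr (.C x y)
  | .C x y σ => .inl (.C x y, .s σ)
  | .P x y k => if k.val = 0 then .inl (.C x y, .sep) else .inr (.P x y ⟨k.val - 1, by omega⟩)
  | .PD x y => if h : (P x y).length = 0 then .inl (.C x y, .sep) else
      .inr (.P x y ⟨(P x y).length - 1, by omega⟩)
  | .wD x y o => .inr (.D x y o)
  | .D x y o o' => .inl (.D x y o, .h o')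
  | .DE x y o => .inl (.D x y o, .sep)
  | .E x y => .inr (.E x y)

/-- Targets. -/
def qtgt : QTr P → RPt S ⊕ (WPt P × Al S)
  | .st => .inr (.A, .h none)
  | .wA => .inl .A
  | .A x => .inl (.B x)
  | .B x y => .inr (.C x y, .sep)
  | .wC x y => .inl (.C x y)
  | .C x y σ => .inr (.C x y, .s σ)
  | .P x y k => .inr (.P x y k, .s ((P x y)[k]))
  | .PD x y => .inr (.D x y (some (x, y)), .sep)
  | .wD x y o => .inl (.D x y o)
  | .D x y o o' => .inr (.D x y o', .h o)
  | .DE x y o => .inr (.E x y, .h o)
  | .E x y => .inr (.A, .h (some (x, y)))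

theorem qsrc_inj : Function.Injective (qsrc P) := by
  intro a b h
  cases a <;> cases b <;> simp only [qsrc] at h
  case P.P x y k x' y' k' =>
    split_ifs at h with h1 h2 h2 <;> simp at h
    · obtain ⟨rfl, rfl⟩ := h
      have : k = k' := Fin.ext (by omega)
      rw [this]
    · obtain ⟨rfl, rfl, h⟩ := h
      simp at h
      have : k = k' := Fin.ext (by omega)
      rw [this]
  case P.PD x y k x' y' =>
    split_ifs at h with h1 h2 h2 <;> simp at h
    · obtain ⟨rfl, rfl⟩ := h
      have := k.2
      omega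
    · obtain ⟨rfl, rfl, h⟩ := h
      simp at h
      have := k.2
      omega
  case PD.P x y x' y' k =>
    split_ifs at h with h1 h2 h2 <;> simp at h
    · obtain ⟨rfl, rfl⟩ := h
      have := k.2
      omega
    · obtain ⟨rfl, rfl, h⟩ := h
      simp at h
      have := k.2
      omega
  case PD.PD x y x' y' =>
    split_ifs at h with h1 h2 h2 <;> simp at h
    · rw [h.1, h.2]
    · rw [h.1, h.2.1]
  all_goals first
    | (split_ifs at h <;> simp at h; done)
    | (simp at h; done)
    | rfl
    | (simp at h; simp_all)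

theorem qtgt_inj : Function.Injective (qtgt P) := by
  intro a b h
  cases a <;> cases b <;> simp only [qtgt] at h
  case P.P x y k x' y' k' =>
    simp only [Sum.inr.injEq, Prod.mk.injEq, WPt.P.injEq, Al.s.injEq] at h
    obtain ⟨⟨rfl, rfl, h⟩, _⟩ := h
    simp only [heq_eq_eq] at h
    rw [h]
  all_goals first
    | rfl
    | (simp at h; done)
    | (simp at h; simp_all)

/-- The reversible machine simulating the queue system. -/
def qm : RW (Al S) where
  RP := RPt S
  WP := WPt P
  Tr := QTr P
  src := qsrc P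
  tgt := qtgt P
  src_inj := qsrc_inj P
  tgt_inj := qtgt_inj P

/-- Reading one symbol of the queue and writing it back. -/
theorem q_copy (x y : S) : ∀ (t : List S) (V : List (Al S)),
    ReflTransGen (qm P).CStep (.R (.C x y) (t.map .s ++ V)) (.R (.C x y) (V ++ t.map .s)) := by
  intro t
  induction t with
  | nil => intro V; simp only [List.map_nil, List.nil_append, List.append_nil]; exact .refl
  | cons σ t ih =>
    intro V
    have h1 : (qm P).CStep (.R (.C x y) ((σ :: t).map .s ++ V))
        (.W (.C x y) ((t.map .s ++ V) ++ [.s σ])) :=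
      RW.cstep_rd (qm P) (QTr.C x y σ) _ _ _ rfl _ rfl
    have h2 : (qm P).CStep (.W (.C x y) ((t.map .s ++ V) ++ [.s σ]))
        (.R (.C x y) ((t.map .s ++ V) ++ [.s σ])) :=
      RW.cstep_wr (qm P) (QTr.wC x y) _ _ rfl _ rfl
    refine ReflTransGen.head h1 (ReflTransGen.head h2 ?_)
    have h3 := ih (V ++ [.s σ])
    simpa using h3

/-- Writing the production. -/
theorem q_prod (x y : S) (hP : 0 < (P x y).length) (V : List (Al S)) :
    ∀ k : ℕ, ∀ hk : k < (P x y).length,
    TransGen (qm P).CStep (.R (.C x y) (.sep :: V))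
      (.W (.P x y ⟨k, hk⟩) (V ++ ((P x y).take (k + 1)).map .s)) := by
  intro k
  induction k with
  | zero =>
    intro hk
    refine TransGen.single (RW.cstep_rd (qm P) (QTr.P x y ⟨0, hk⟩) _ _ _ rfl _ ?_)
    simp only [qm, qtgt, RW.post]
    congr 2
    rw [List.take_add_one]
    simp [hP]
  | succ k ih =>
    intro hk
    refine (ih (by omega)).tail
      (RW.cstep_wr (qm P) (QTr.P x y ⟨k + 1, hk⟩) _ _ rfl _ ?_)
    simp only [qm, qtgt, RW.post]
    rw [List.append_assoc]
    congr 2
    rw [List.take_add_one (i := k + 1), List.map_append]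
    congr 1
    simp [hk]

theorem q_prod_all (x y : S) (hP : 0 < (P x y).length) (V : List (Al S)) :
    TransGen (qm P).CStep (.R (.C x y) (.sep :: V))
      (.R (.D x y (some (x, y))) (V ++ (P x y).map .s ++ [.sep])) := by
  have h1 := q_prod P x y hP V ((P x y).length - 1) (by omega)
  have e : (P x y).length - 1 + 1 = (P x y).length := by omega
  rw [e, List.take_length] at h1
  have h2 : (qm P).CStep (.W (.P x y ⟨(P x y).length - 1, by omega⟩) (V ++ (P x y).map .s))
      (.W (.D x y (some (x, y))) (V ++ (P x y).map .s ++ [.sep])) := by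
    refine RW.cstep_wr (qm P) (QTr.PD x y) _ _ ?_ _ rfl
    simp only [qm, qsrc]
    rw [dif_neg (by omega)]
  have h3 : (qm P).CStep (.W (.D x y (some (x, y))) (V ++ (P x y).map .s ++ [.sep]))
      (.R (.D x y (some (x, y))) (V ++ (P x y).map .s ++ [.sep])) :=
    RW.cstep_wr (qm P) (QTr.wD x y (some (x, y))) _ _ rfl _ rfl
  exact (h1.tail h2).tail h3

/-- Shifting the history. -/
theorem q_hist (x y : S) : ∀ (H : List (Option (S × S))) (o : Option (S × S))
    (V : List (Al S)),
    TransGen (qm P).CStep (.R (.D x y o) (H.map .h ++ .sep :: V))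
      (.W (.E x y) (V ++ (o :: H).map .h)) := by
  intro H
  induction H with
  | nil =>
    intro o V
    exact TransGen.single (RW.cstep_rd (qm P) (QTr.DE x y o) _ _ _ rfl _ rfl)
  | cons o' H ih =>
    intro o V
    have h1 : (qm P).CStep (.R (.D x y o) ((o' :: H).map .h ++ .sep :: V))
        (.W (.D x y o') ((H.map .h ++ .sep :: V) ++ [.h o])) :=
      RW.cstep_rd (qm P) (QTr.D x y o o') _ _ _ rfl _ rfl
    have h2 : (qm P).CStep (.W (.D x y o') ((H.map .h ++ .sep :: V) ++ [.h o]))
        (.R (.D x y o') ((H.map .h ++ .sep :: V) ++ [.h o])) :=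
      RW.cstep_wr (qm P) (QTr.wD x y o') _ _ rfl _ rfl
    have h3 := ih o' (V ++ [.h o])
    refine TransGen.head h1 (TransGen.head h2 ?_)
    simpa using h3

/-- The content representing a queue word and a history. -/
def qc (w : List S) (H : List (Option (S × S))) : List (Al S) :=
  w.map .s ++ .sep :: H.map .h

/-- One step of the queue system. -/
theorem q_step (x y : S) (hP : 0 < (P x y).length) (t : List S) (H : List (Option (S × S))) :
    TransGen (qm P).CStep (.R .A (qc (x :: y :: t) H))
      (.R .A (qc (t ++ P x y) (some (x, y) :: (H ++ [some (x, y)])))) := by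
  have h1 : (qm P).CStep (.R .A (qc (x :: y :: t) H)) (.R (.B x) (qc (y :: t) H)) :=
    RW.cstep_rd (qm P) (QTr.A x) _ _ _ rfl _ rfl
  have h2 : (qm P).CStep (.R (.B x) (qc (y :: t) H)) (.W (.C x y) (qc t H ++ [.sep])) :=
    RW.cstep_rd (qm P) (QTr.B x y) _ _ _ rfl _ rfl
  have h3 : (qm P).CStep (.W (.C x y) (qc t H ++ [.sep])) (.R (.C x y) (qc t H ++ [.sep])) :=
    RW.cstep_wr (qm P) (QTr.wC x y) _ _ rfl _ rfl
  have h4 := q_copy P x y t (.sep :: (H.map .h ++ [.sep]))
  have h5 := q_prod_all P x y hP (H.map .h ++ [.sep] ++ t.map .s)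
  have h6 := q_hist P x y H (some (x, y)) (t.map .s ++ (P x y).map .s ++ [.sep])
  have h7 : (qm P).CStep (.W (.E x y) ((t.map .s ++ (P x y).map .s ++ [.sep]) ++
        (some (x, y) :: H).map .h))
      (.W .A (((t.map .s ++ (P x y).map .s ++ [.sep]) ++
        (some (x, y) :: H).map .h) ++ [.h (some (x, y))])) :=
    RW.cstep_wr (qm P) (QTr.E x y) _ _ rfl _ rfl
  have h8 : (qm P).CStep (.W .A (((t.map .s ++ (P x y).map .s ++ [.sep]) ++
        (some (x, y) :: H).map .h) ++ [.h (some (x, y))]))
      (.R .A (qc (t ++ P x y) (some (x, y) :: (H ++ [some (x, y)])))) := by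
    refine RW.cstep_wr (qm P) QTr.wA _ _ rfl _ ?_
    simp [qm, qtgt, RW.post, qc]
  refine TransGen.head h1 (TransGen.head h2 (TransGen.head h3 ?_))
  have e1 : qc t H ++ [.sep] = t.map .s ++ (.sep :: (H.map .h ++ [.sep])) := by simp [qc]
  rw [e1]
  refine TransGen.trans_right h4 ?_
  have e2 : (Al.sep :: (H.map Al.h ++ [Al.sep])) ++ t.map Al.s =
      Al.sep :: (H.map .h ++ [.sep] ++ t.map .s) := by simp
  rw [e2]
  refine h5.trans ?_
  have e3 : (H.map Al.h ++ [Al.sep] ++ t.map Al.s) ++ (P x y).map .s ++ [.sep] =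
      H.map .h ++ .sep :: (t.map .s ++ (P x y).map .s ++ [.sep]) := by simp
  rw [e3]
  exact (h6.tail h7).tail h8

/-- The first step. -/
theorem q_start (w : List S) :
    TransGen (qm P).CStep (.R .st (.h none :: (w.map .s ++ [.sep]))) (.R .A (qc w [none])) := by
  have h1 : (qm P).CStep (.R .st (.h none :: (w.map .s ++ [.sep])))
      (.W .A ((w.map .s ++ [.sep]) ++ [.h none])) :=
    RW.cstep_rd (qm P) QTr.st _ _ _ rfl _ rfl
  have h2 : (qm P).CStep (.W .A ((w.map .s ++ [.sep]) ++ [.h none])) (.R .A (qc w [none])) := by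
    refine RW.cstep_wr (qm P) QTr.wA _ _ rfl _ ?_
    simp [qm, qtgt, RW.post, qc]
  exact TransGen.head h1 (TransGen.single h2)

theorem q_reach (hP : ∀ x y, 0 < (P x y).length) {w w' : List S} (h : QReach P w w')
    (H : List (Option (S × S))) (hH : H.reverse = H) :
    ∃ H' : List (Option (S × S)), H'.reverse = H' ∧
      ReflTransGen (qm P).CStep (.R .A (qc w H)) (.R .A (qc w' H')) := by
  induction h with
  | refl => exact ⟨H, hH, .refl⟩
  | tail _ h2 ih =>
    obtain ⟨H', hH', hr⟩ := ih
    cases h2 with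
    | mk x y t =>
      refine ⟨some (x, y) :: (H' ++ [some (x, y)]), by simp [hH'], ?_⟩
      exact hr.trans (q_step P x y (hP x y) t H').to_reflTransGen

/-- The positive case: the switch is reached with a palindrome. -/
theorem q_pos (hP : ∀ x y, 0 < (P x y).length) (K : S) (w : List S) (h : QReach P w [K]) :
    ∃ z : List (Al S), z.reverse = z ∧
      ReflTransGen (qm P).CStep (.R .st (.h none :: (w.map .s ++ [.sep])))
        (.R (.B K) (.sep :: z)) := by
  obtain ⟨H', hH', hr⟩ := q_reach P hP h [none] rfl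
  refine ⟨H'.map .h, by rw [← List.map_reverse, hH'], ?_⟩
  have h1 : (qm P).CStep (.R .A (qc [K] H')) (.R (.B K) (.sep :: H'.map .h)) :=
    RW.cstep_rd (qm P) (QTr.A K) _ _ _ rfl _ rfl
  exact ((q_start P w).to_reflTransGen.trans hr).tail h1

/-- The negative case: an invariant. -/
theorem q_neg (K : S) (hP : ∀ x y, 2 ≤ (P x y).length ∨ P x y = [K]) (w : List S)
    (hw : 2 ≤ w.length) (h : ¬ QReach P w [K]) :
    ∃ I : (qm P).Cfg → Prop, I (.R .st (.h none :: (w.map .s ++ [.sep]))) ∧
      ∀ c, I c → ∃ c', TransGen (qm P).CStep c c' ∧ I c' := by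
  have hP0 : ∀ x y, 0 < (P x y).length := by
    intro x y
    rcases hP x y with h | h
    · omega
    · rw [h]; simp
  have hlen : ∀ w', QReach P w w' → 2 ≤ w'.length := by
    intro w' hw'
    induction hw' with
    | refl => exact hw
    | tail h1 h2 ih =>
      cases h2 with
      | mk x y t =>
        rcases hP x y with h3 | h3
        · simp only [List.length_append]; omega
        · rcases t with _ | ⟨a, t⟩
          · exfalso
            apply h
            refine h1.tail ?_
            have := QStep.mk (P := P) x y []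
            rwa [h3] at this
          · simp [h3]
  refine ⟨fun c => c = .R .st (.h none :: (w.map .s ++ [.sep])) ∨
    ∃ w' H, QReach P w w' ∧ c = .R .A (qc w' H), Or.inl rfl, ?_⟩
  rintro c (rfl | ⟨w', H, hw', rfl⟩)
  · exact ⟨_, q_start P w, Or.inr ⟨w, _, .refl, rfl⟩⟩
  · have h2 := hlen w' hw'
    match w', hw', h2 with
    | x :: y :: t, hw', _ =>
      exact ⟨_, q_step P x y (hP0 x y) t H, Or.inr ⟨_, _, hw'.tail (QStep.mk x y t), rfl⟩⟩

theorem q_sw (K : S) (δ : QTr P) : (qm P).src δ ≠ .inl (.B K, .sep) := by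
  intro h
  cases δ <;> simp only [qm, qsrc] at h
  all_goals first
    | (simp at h; done)
    | (split_ifs at h <;> simp at h)

theorem q_st (δ : QTr P) : (qm P).tgt δ ≠ .inl .st := by
  intro h
  cases δ <;> simp [qm, qtgt] at h

end Pool.Agent.Helper247.Elem
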