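import Mathlib
import Pool.Agent.Helper247.Elem.QM
import Pool.Agent.Helper247.Univ

/-!
A computable family of instances of the Post correspondence problem for elementary
homomorphisms with undecidable solvability.
-/

set_option autoImplicit false

namespace Pool.Agent.Helper247.Elem

open Lt Relation Turing Pool.Agent.Helper247.Queue

open Turing.PartrecToTM2 (trNat)

/-- Coded digits form a computable function. -/
theorem digits_flatMap (κ : PartrecToTM2.Γ' → List ℕ) :
    Computable (fun n : ℕ => (trNat n).flatMap κ) := by
  suffices h : Primrec₂ (fun (_ : Unit) (n : ℕ) => (trNat n).flatMap κ) from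
    (h.comp (Primrec.const ()) Primrec.id).to_comp
  refine Primrec.nat_strong_rec _ (g := fun _ (l : List (List ℕ)) =>
    if l.length = 0 then some []
    else (l[l.length / 2]?).map (fun v =>
      (if l.length % 2 = 1 then κ PartrecToTM2.Γ'.bit1 else κ PartrecToTM2.Γ'.bit0) ++ v)) ?_ ?_
  · refine Primrec.ite (PrimrecRel.comp Primrec.eq
      (Primrec.list_length.comp Primrec.snd) (Primrec.const 0)) (Primrec.const _) ?_
    refine Primrec.option_map (Primrec.list_getElem?.comp Primrec.snd
      (Primrec.nat_div.comp (Primrec.list_length.comp Primrec.snd) (Primrec.const 2))) ?_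
    refine Primrec.list_append.comp (Primrec.ite (PrimrecRel.comp Primrec.eq
      (Primrec.nat_mod.comp (Primrec.list_length.comp (Primrec.snd.comp Primrec.fst))
        (Primrec.const 2)) (Primrec.const 1)) (Primrec.const _) (Primrec.const _)) Primrec.snd
  · intro _ n
    rcases n with _ | n
    · simp
    · have : (n + 1) / 2 < n + 1 := by omega
      simp only [List.length_map, List.length_range]
      rw [if_neg (by omega)]
      rw [List.getElem?_map, List.getElem?_range this, Univ.trNat_rec n]
      simp only [Option.map_some, List.flatMap_cons]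
      split_ifs <;> rfl

/-- The tape word. -/
noncomputable def tape (n : ℕ) : List (TM2to1.Γ' PartrecToTM2.K' (fun _ => PartrecToTM2.Γ')) :=
  Univ.sym true .cons :: (trNat n).reverse.map (Univ.sym false)

theorem init_computable {Λ : Type} [Inhabited Λ]
    (φ : Queue.Sym (TM2to1.Γ' PartrecToTM2.K' (fun _ => PartrecToTM2.Γ')) Λ → List ℕ) :
    Computable (fun n => (initWord (tape n)).flatMap φ) := by
  have hd := digits_flatMap (fun a => (φ (Queue.Sym.cell (Univ.sym false a))).reverse)
  have hd1 := digits_flatMap (fun _ => [0])
  have hlen : Computable (fun n => (trNat n).length) := by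
    have := Computable.list_length.comp hd1
    refine this.of_eq (fun n => ?_)
    simp
  have : (fun n => (initWord (tape n)).flatMap φ) = fun n =>
      (if ((trNat n).length + 1) % 2 = 0 then
        φ Queue.Sym.mark ++ φ (Queue.Sym.head default (Univ.sym true .cons))
      else φ Queue.Sym.mark ++ (φ (Queue.Sym.cell default) ++
        φ (Queue.Sym.head default (Univ.sym true .cons)))) ++
      ((trNat n).flatMap
        (fun a => (φ (Queue.Sym.cell (Univ.sym false a))).reverse)).reverse := by
    funext n
    simp only [tape, initWord, List.length_cons, List.length_map, List.length_reverse]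
    split_ifs <;>
      · simp only [List.headI, List.tail, List.flatMap_cons, List.append_assoc,
          List.reverse_flatMap, Function.comp_def, List.reverse_reverse, List.map_map]
        rw [List.map_reverse, ← List.map_reverse, List.flatMap_map]
  rw [this]
  have hmod : Computable (fun n : ℕ => ((trNat n).length + 1) % 2) :=
    (Primrec.nat_mod.comp (Primrec.succ.comp Primrec.id) (Primrec.const 2)).to_comp.comp hlen
  have hite : Computable (fun n : ℕ => (if ((trNat n).length + 1) % 2 = 0 then
        φ Queue.Sym.mark ++ φ (Queue.Sym.head default (Univ.sym true .cons))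
      else φ Queue.Sym.mark ++ (φ (Queue.Sym.cell default) ++
        φ (Queue.Sym.head default (Univ.sym true .cons))))) := by
    have hp : Primrec (fun m : ℕ => if m = 0 then
        φ Queue.Sym.mark ++ φ (Queue.Sym.head default (Univ.sym true .cons))
      else φ Queue.Sym.mark ++ (φ (Queue.Sym.cell default) ++
        φ (Queue.Sym.head default (Univ.sym true .cons)))) :=
      Primrec.ite (PrimrecRel.comp Primrec.eq Primrec.id (Primrec.const 0))
        (Primrec.const _) (Primrec.const _)
    exact hp.to_comp.comp hmod
  exact Computable.list_append.comp hite (Computable.list_reverse.comp hd)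

/-- The instance as a pair of lists of words over the natural numbers. -/
def inst (A : Mach) (n0 : ℕ) (L : List (Rule A.N A.Tr)) (enc : Lt → ℕ) (bits : List Bool) :
    List (List ℕ) × List (List ℕ) :=
  ((((.inr true : Full A) :: .inr false :: L.map .inl)).map
      (fun f => (GG A n0 bits f).map enc),
    (((.inr true : Full A) :: .inr false :: L.map .inl)).map
      (fun f => (HH A n0 bits f).map enc))

theorem list_inst_mem {A : Mach} {L : List (Rule A.N A.Tr)} (hL : ∀ r, r ∈ L) (f : Full A) :
    f ∈ ((.inr true : Full A) :: .inr false :: L.map .inl) := by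
  rcases f with r | _ | _
  · simp [hL r]
  · simp
  · simp

theorem list_inst_nodup {A : Mach} {L : List (Rule A.N A.Tr)} (hL : L.Nodup) :
    ((.inr true : Full A) :: .inr false :: L.map .inl).Nodup := by
  simp only [List.nodup_cons, List.mem_cons, Sum.inr.injEq, Bool.true_eq_false, List.mem_map,
    reduceCtorEq, and_false, exists_false, or_false, not_false_eq_true, true_and]
  exact hL.map Sum.inl_injective

/-- Solutions of an instance given by an enumeration of the indices. -/
theorem sol_iff {F : Type} (LF : List F) (hmem : ∀ f, f ∈ LF) (G H : F → List ℕ) :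
    (∃ w : List ℕ, w ≠ [] ∧ (∀ i ∈ w, i < (LF.map G).length) ∧
        w.flatMap (fun i => (LF.map G).getD i []) = w.flatMap (fun i => (LF.map H).getD i [])) ↔
      ∃ w : List F, w ≠ [] ∧ w.flatMap G = w.flatMap H := by
  classical
  constructor
  · rintro ⟨w, hne, hlt, heq⟩
    simp only [List.length_map] at hlt
    have hF : Nonempty F := by
      rcases w with _ | ⟨i, w⟩
      · exact absurd rfl hne
      · exact ⟨LF[i]'(hlt i (by simp))⟩
    let _ : Inhabited F := ⟨hF.some⟩
    refine ⟨w.map (fun i => LF.getD i default), by simpa using hne, ?_⟩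
    rw [List.flatMap_map, List.flatMap_map]
    have e : ∀ G : F → List ℕ, w.flatMap (fun i => G (LF.getD i default)) =
        w.flatMap (fun i => (LF.map G).getD i []) := by
      intro G
      apply List.flatMap_congr
      intro i hi
      have := hlt i hi
      simp [List.getD_eq_getElem?_getD, this]
    rw [e G, e H, heq]
  · rintro ⟨w, hne, heq⟩
    refine ⟨w.map (fun f => LF.idxOf f), by simpa using hne, ?_, ?_⟩
    · intro i hi
      obtain ⟨f, _, rfl⟩ := List.mem_map.1 hi
      simpa using List.idxOf_lt_length_iff.2 (hmem f)
    · rw [List.flatMap_map, List.flatMap_map]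
      have e : ∀ G : F → List ℕ, (fun f => (LF.map G).getD (LF.idxOf f) []) = G := by
        intro G
        funext f
        have := List.idxOf_lt_length_iff.2 (hmem f)
        simp [List.getD_eq_getElem?_getD, this]
      rw [e G, e H, heq]

/-- The elementary property in terms of lists. -/
theorem elem_list {F C : Type} (LF : List F) (hmem : ∀ f, f ∈ LF) (hnd : LF.Nodup)
    (G : F → List ℕ)
    (hG : ∀ (F' : F → List C) (k : C → List ℕ), (∀ i, (F' i).flatMap k = G i) →
      ∃ f : F → C, Function.Injective f)
    (f : ℕ → List C) (k : C → List ℕ)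
    (h : ∀ i, i < (LF.map G).length → (f i).flatMap k = (LF.map G).getD i []) :
    ∃ g : Fin (LF.map G).length → C, Function.Injective g := by
  classical
  obtain ⟨g, hg⟩ := hG (fun x => f (LF.idxOf x)) k (by
    intro x
    have hx := List.idxOf_lt_length_iff.2 (hmem x)
    rw [h _ (by simpa using hx)]
    simp [List.getD_eq_getElem?_getD, hx])
  refine ⟨fun i => g (LF[i.val]'(by simpa using i.2)), ?_⟩
  intro i j hij
  have := hg hij
  exact Fin.ext ((List.Nodup.getElem_inj_iff hnd).1 this)

/-- The start word in coded form is computable. -/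
theorem z0_computable {Λ : Type} [Inhabited Λ] (enc : Lt → ℕ) (n0 : ℕ) (b1 b2 : List Bool)
    (ψ : Queue.Sym (TM2to1.Γ' PartrecToTM2.K' (fun _ => PartrecToTM2.Γ')) Λ → List Bool) :
    Computable (fun n =>
      (z0 n0 (b1 ++ ((initWord (tape n)).flatMap ψ ++ b2))).map enc) := by
  have h1 := init_computable (fun a => (Q (ψ a)).map enc)
  have : (fun n => (z0 n0 (b1 ++ ((initWord (tape n)).flatMap ψ ++ b2))).map enc) = fun n =>
      (enc kap :: (Q b1).map enc) ++
        ((initWord (tape n)).flatMap (fun a => (Q (ψ a)).map enc) ++
          ((Q b2).map enc ++ [enc (y false n0 0), enc (rho false)])) := by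
    funext n
    have e : ∀ w : List (Queue.Sym (TM2to1.Γ' PartrecToTM2.K' (fun _ => PartrecToTM2.Γ')) Λ),
        (Q (w.flatMap ψ)).map enc = w.flatMap (fun a => (Q (ψ a)).map enc) := by
      intro w
      induction w with
      | nil => simp
      | cons a w ih => simp [ih]
    simp only [z0, Q_append, List.map_cons, List.map_append, e, List.append_assoc,
      List.cons_append, List.map_nil]
  rw [this]
  exact Computable.list_append.comp (Computable.const _)
    (Computable.list_append.comp h1 (Computable.const _))

theorem finite_rule (N : ℕ) (Tr : Type) [Finite Tr] : Finite (Rule N Tr) := by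
  let f : Rule N Tr → Bool ⊕ (Bool × Bool) ⊕ (Bool × Fin N × Fin N) ⊕
      (Bool × Fin N × Bool) ⊕ Tr := fun r => match r with
    | .I j => .inl j
    | .C s j => .inr (.inl (s, j))
    | .Y s d t => .inr (.inr (.inl (s, d, t)))
    | .P s t j => .inr (.inr (.inr (.inl (s, t, j))))
    | .T δ => .inr (.inr (.inr (.inr δ)))
  apply Finite.of_injective f
  intro a b h
  cases a <;> cases b <;> simp_all [f]

theorem finite_ctr {α : Type} (B : RW α) (m : ℕ) (h1 : Finite B.RP) (h2 : Finite B.WP)
    (h3 : Finite B.Tr) : Finite (CTr B m) := by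
  let f : CTr B m → B.RP ⊕ (B.RP × Fin m) ⊕ B.Tr ⊕ B.WP ⊕ (B.WP × Fin m) :=
    fun r => match r with
    | .rd0 r => .inl r
    | .rd1 r i => .inr (.inl (r, i))
    | .tr δ => .inr (.inr (.inl δ))
    | .w0 w => .inr (.inr (.inr (.inl w)))
    | .w1 w i => .inr (.inr (.inr (.inr (w, i))))
  apply Finite.of_injective f
  intro a b h
  cases a <;> cases b <;> simp_all [f]

/-- A computable family of instances with undecidable solvability. -/
theorem family : ∃ (F : ℕ → List (List ℕ) × List (List ℕ)), Computable F ∧
    (∀ n, (F n).1.length = (F n).2.length) ∧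
    (∀ n, ∀ (C : Type) (f : ℕ → List C) (k : C → List ℕ),
      (∀ i, i < (F n).1.length → (f i).flatMap k = (F n).1.getD i []) →
      ∃ g : Fin (F n).1.length → C, Function.Injective g) ∧
    (∀ n, ∀ (C : Type) (f : ℕ → List C) (k : C → List ℕ),
      (∀ i, i < (F n).2.length → (f i).flatMap k = (F n).2.getD i []) →
      ∃ g : Fin (F n).2.length → C, Function.Injective g) ∧
    (∀ n, (∃ w : List ℕ, w ≠ [] ∧ (∀ i ∈ w, i < (F n).1.length) ∧
        w.flatMap (fun i => (F n).1.getD i []) = w.flatMap (fun i => (F n).2.getD i [])) ↔
      (Univ.u n).Dom) := by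
  classical
  obtain ⟨Λ, i1, i2, M, hM⟩ := Univ.exists_machine
  let S := Queue.Sym (TM2to1.Γ' PartrecToTM2.K' (fun _ => PartrecToTM2.Γ')) Λ
  have fK : Finite PartrecToTM2.K' := by
    refine Finite.of_injective (fun k : PartrecToTM2.K' => match k with
      | .main => (0 : Fin 4)
      | .rev => 1
      | .aux => 2
      | .stack => 3) ?_
    intro a b h
    cases a <;> cases b <;> simp_all
  have fG : Finite (TM2to1.Γ' PartrecToTM2.K' (fun _ => PartrecToTM2.Γ')) :=
    inferInstanceAs (Finite (Bool × (PartrecToTM2.K' → Option PartrecToTM2.Γ')))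
  have fS : Finite S := inferInstanceAs (Finite (Queue.Sym _ _))
  let P : S → S → List S := Queue.prod M
  have hP1 : ∀ x y, 2 ≤ (P x y).length ∨ P x y = [Queue.Sym.kill] := prod_length M
  have hP0 : ∀ x y, 0 < (P x y).length := by
    intro x y
    rcases hP1 x y with h | h
    · omega
    · rw [h]; simp
  -- the symbol machine
  let B := qm P
  -- coding of the symbols
  obtain ⟨m, e, he⟩ : ∃ (m : ℕ) (e : Al S → Fin (m + 1)), Function.Injective e := by
    obtain ⟨m, ⟨e⟩⟩ := Finite.exists_equiv_fin (Al S)
    exact ⟨m, fun a => (e a).castSucc, fun a b h => e.injective (Fin.castSucc_injective _ h)⟩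
  let BB := compile B m e he
  have fRP : Finite BB.RP := inferInstanceAs (Finite (RPt S × Option (Fin (m + 1))))
  have fWP : Finite BB.WP := inferInstanceAs (Finite (WPt P × Option (Fin (m + 1))))
  have fTr0 : Finite B.Tr := inferInstanceAs (Finite (QTr P))
  have fTr : Finite BB.Tr := finite_ctr B m (inferInstanceAs (Finite (RPt S)))
    (inferInstanceAs (Finite (WPt P))) fTr0
  -- numbering of the points
  obtain ⟨N, ⟨eN⟩⟩ := Finite.exists_equiv_fin (BB.RP ⊕ BB.WP)
  let ix : BB.RP ⊕ BB.WP → ℕ := fun p => eN p
  have hix : Function.Injective ix := fun a b h => eN.injective (Fin.ext h)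
  have hN : ∀ p, ix p < N := fun p => (eN p).2
  let sw : BB.RP × Bool := ((RPt.B Queue.Sym.kill, some (e .sep)), false)
  have hsw : ∀ δ, BB.src δ ≠ .inl sw :=
    compile_sw B m e he (RPt.B Queue.Sym.kill, Al.sep) (q_sw P Queue.Sym.kill)
  let start : BB.RP := (RPt.st, none)
  have hstart : ∀ δ, BB.tgt δ ≠ .inl start := compile_start B m e he RPt.st (q_st P)
  let A := total BB N ix hix hN sw hsw
  have fTrA : Finite A.Tr := inferInstanceAs (Finite (BB.Tr ⊕ BB.Tr ⊕ Unit))
  have fRule : Finite (Rule A.N A.Tr) := finite_rule _ _
  let _ : Fintype (Rule A.N A.Tr) := Fintype.ofFinite _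
  let L : List (Rule A.N A.Tr) := Finset.univ.toList
  have hL1 : ∀ r, r ∈ L := fun r => by simp [L]
  have hL2 : L.Nodup := Finset.nodup_toList _
  let n0 := ix (.inl start)
  let enc : Lt → ℕ := Encodable.encode
  have henc : Function.Injective enc := Encodable.encode_injective
  let bits : ℕ → List Bool := fun n =>
    code m e (.h none) ++ ((initWord (tape n)).flatMap (fun a : S => code m e (.s a)) ++
      code m e .sep)
  refine ⟨fun n => inst A n0 L enc (bits n), ?_, ?_, ?_, ?_, ?_⟩
  · have c1 : Computable (fun n => (z0 n0 (bits n)).map enc) := z0_computable enc n0 _ _ _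
    have c2 : Computable (fun n => (z0 n0 (bits n)).map (fun a => enc a.star)) :=
      z0_computable (fun a => enc a.star) n0 _ _ _
    refine Computable.pair ?_ ?_
    · simp only [List.map_cons]
      refine Computable.list_cons.comp ?_ (Computable.const
        ([enc (hat false)] :: (L.map Sum.inl).map (fun f => (GG A n0 [] f).map enc)) |>.of_eq
          (fun n => ?_))
      · refine (Computable.list_append.comp (Computable.list_reverse.comp c2)
          (Computable.const [enc (hat true)])).of_eq (fun n => ?_)
        simp [GG, rs]
      · simp only [GG, List.map_cons, List.map_nil, List.map_map]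
        rfl
    · simp only [List.map_cons]
      refine Computable.list_cons.comp (Computable.const [enc (hat true)])
        (Computable.list_cons.comp ?_ (Computable.const
          ((L.map Sum.inl).map (fun f => (HH A n0 [] f).map enc)) |>.of_eq
          (fun n => ?_)))
      · exact (Computable.list_cons.comp (Computable.const (enc (hat false))) c1)
      · simp only [List.map_map]
        rfl
  · intro n
    simp [inst]
  · intro n C f k h
    exact elem_list _ (list_inst_mem hL1) (list_inst_nodup hL2) _
      (fun F' k' h' => elem_GG A n0 (bits n) enc henc F' k' h') f k h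
  · intro n C f k h
    exact elem_list _ (list_inst_mem hL1) (list_inst_nodup hL2) _
      (fun F' k' h' => elem_HH A n0 (bits n) enc henc F' k' h') f k h
  · intro n
    rw [← hM n]
    have hrep : Rep (TM0.init (tape n) : TM0.Cfg _ Λ) (initWord (tape n)) :=
      rep_init (tape n) (by simp [tape])
    change _ ↔ (StateTransition.eval (TM0.step M) (TM0.init (tape n))).Dom
    rw [← rep_halts M hrep]
    have h1 := sol_iff ((.inr true : Full A) :: .inr false :: L.map .inl)
      (list_inst_mem hL1) (fun f => (GG A n0 (bits n) f).map enc)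
      (fun f => (HH A n0 (bits n) f).map enc)
    refine h1.trans ?_
    have h2 : (∃ w : List (Full A), w ≠ [] ∧
        w.flatMap (fun f => (GG A n0 (bits n) f).map enc) =
          w.flatMap (fun f => (HH A n0 (bits n) f).map enc)) ↔
        ∃ w : List (Full A), w ≠ [] ∧
          w.flatMap (GG A n0 (bits n)) = w.flatMap (HH A n0 (bits n)) := by
      constructor
      · rintro ⟨w, hne, h⟩
        refine ⟨w, hne, ?_⟩
        rw [← List.map_flatMap, ← List.map_flatMap] at h
        exact henc.list_map h
      · rintro ⟨w, hne, h⟩
        refine ⟨w, hne, ?_⟩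
        rw [← List.map_flatMap, ← List.map_flatMap, h]
    rw [h2]
    have hcc : cc B m e he (.R .st (.h none :: ((initWord (tape n)).map .s ++ [.sep]))) =
        .R start (bits n) := by
      simp [cc, bits, start, List.flatMap_map]
      rfl
    constructor
    · intro h
      by_contra hn
      obtain ⟨I, hI0, hI⟩ := q_neg P Queue.Sym.kill hP1 (initWord (tape n))
        (initWord_length _) hn
      refine total_neg BB N ix hix hN sw hsw start hstart (bits n)
        (fun c => ∃ c0, I c0 ∧ c = cc B m e he c0) ⟨_, hI0, hcc.symm⟩ ?_ h
      rintro _ ⟨c0, hc0, rfl⟩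
      obtain ⟨c1, h1, h2⟩ := hI c0 hc0
      exact ⟨_, c_reach₁ B m e he h1, c1, h2, rfl⟩
    · intro h
      obtain ⟨z, hz, hr⟩ := q_pos P hP0 Queue.Sym.kill (initWord (tape n)) h
      have h3 := c_reach B m e he hr
      rw [hcc] at h3
      have h4 := read_sym B m e he (.B Queue.Sym.kill) .sep (z.flatMap (code m e))
      refine total_pos BB N ix hix hN sw hsw start (bits n) (z.flatMap (code m e)) ?_ ?_
      · rw [flatMap_code_reverse, hz]
      · exact h3.trans h4.to_reflTransGen

end Pool.Agent.Helper247.Elem
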